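import Pool.Agent.Y192.FN.Ind
import Pool.Agent.Y192.FA.GMain

/-!
Covers of arbitrary closed subsets of projective space: degree bounds by Noetherian induction.
-/

set_option autoImplicit false

namespace Pool.Agent.Y192.FN

open MvPolynomial Metric FF Pool.Agent.W603.LV Pool.Agent.W603.PV Pool.Agent.Y192.OG
open Pool.Agent.Y192.KC (Cov ZCov ZRed laur exists_K redL_of)

section sol

variable {n r : ℕ} {X : NDat n r} {m : ℕ} {R : Type} [CommRing R] [Algebra ℂ R]

theorem Sol.add {u : Fin (n + 1) → R} {v : Fin r → R} (h : Sol X m u v)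
    {g : MvPolynomial (Fin (n + 1)) ℂ} (hg : aeval (fun i => u i ^ m) g = 0)
    (hh : ∀ f ∈ X.J ⊔ Ideal.span {g}, ∀ k, homogeneousComponent k f ∈ X.J ⊔ Ideal.span {g}) :
    Sol (X.add g hh) m u v where
  mem := fun f hf => by
    obtain ⟨a, ha, b, hb, rfl⟩ := Submodule.mem_sup.mp hf
    obtain ⟨c, rfl⟩ := Ideal.mem_span_singleton'.mp hb
    rw [map_add, map_mul, hg, mul_zero, add_zero]
    exact h.mem a ha
  eqn := h.eqn
  G_ne := h.G_ne

theorem Sol.of_add {u : Fin (n + 1) → R} {v : Fin r → R} {g : MvPolynomial (Fin (n + 1)) ℂ}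
    {hh : ∀ f ∈ X.J ⊔ Ideal.span {g}, ∀ k, homogeneousComponent k f ∈ X.J ⊔ Ideal.span {g}}
    (h : Sol (X.add g hh) m u v) : Sol X m u v where
  mem := fun f hf => h.mem f (Ideal.mem_sup_left hf)
  eqn := h.eqn
  G_ne := h.G_ne

theorem nogm_add (h : NNoGm X m) {g : MvPolynomial (Fin (n + 1)) ℂ}
    {hh : ∀ f ∈ X.J ⊔ Ideal.span {g}, ∀ k, homogeneousComponent k f ∈ X.J ⊔ Ideal.span {g}} :
    NNoGm (X.add g hh) m := fun p s hp =>
  h p s ⟨hp.ne, fun z hz => (hp.sol z hz).of_add, hp.nonconst⟩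

/-- evaluation of the substitution -/
theorem aeval_sub0 {i : Fin (n + 2)} {u : Fin (n + 2) → R} (hu : u i = 0)
    (f : MvPolynomial (Fin (n + 2)) ℂ) :
    aeval (fun k => u (i.succAbove k)) (sub0 i f) = aeval u f := by
  unfold sub0
  rw [← AlgHom.comp_apply, comp_aeval]
  congr 2
  funext l
  refine Fin.succAboveCases i ?_ (fun k => ?_) l
  · rw [Fin.insertNth_apply_same, map_zero, hu]
  · rw [Fin.insertNth_apply_succAbove, aeval_X]

theorem Sol.drv {X : NDat (n + 1) r} {i : Fin (n + 2)} {u : Fin (n + 2) → R} {v : Fin r → R}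
    (h : Sol X m u v) (hu : u i ^ m = 0) : Sol (X.drv i) m (fun k => u (i.succAbove k)) v where
  mem := fun f hf => by
    obtain ⟨g, hg, rfl⟩ := (Ideal.mem_map_iff_of_surjective _ (sub0_surj i)).mp hf
    rw [aeval_sub0 (u := fun k => u k ^ m) hu]
    exact h.mem g hg
  eqn := fun j => by
    change _ = aeval (fun k => u (i.succAbove k) ^ m) (sub0 i (X.F j))
    rw [aeval_sub0 (u := fun k => u k ^ m) hu]
    exact h.eqn j
  G_ne := by
    change aeval (fun k => u (i.succAbove k) ^ m) (sub0 i X.G) ≠ 0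
    rw [aeval_sub0 (u := fun k => u k ^ m) hu]
    exact h.G_ne

theorem Sol.of_drv {X : NDat (n + 1) r} {i : Fin (n + 2)} {u : Fin (n + 2) → R} {v : Fin r → R}
    (hu : u i ^ m = 0) (h : Sol (X.drv i) m (fun k => u (i.succAbove k)) v) : Sol X m u v where
  mem := fun f hf => by
    have h1 := h.mem (sub0 i f) (Ideal.mem_map_of_mem _ hf)
    rwa [aeval_sub0 (u := fun k => u k ^ m) hu] at h1
  eqn := fun j => by
    have h1 := h.eqn j
    change _ = aeval (fun k => u (i.succAbove k) ^ m) (sub0 i (X.F j)) at h1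
    rwa [aeval_sub0 (u := fun k => u k ^ m) hu] at h1
  G_ne := by
    have h1 := h.G_ne
    change aeval (fun k => u (i.succAbove k) ^ m) (sub0 i X.G) ≠ 0 at h1
    rwa [aeval_sub0 (u := fun k => u k ^ m) hu] at h1

theorem Sol.drF {X : NDat n (r + 1)} {j : Fin (r + 1)} {u : Fin (n + 1) → R}
    {v : Fin (r + 1) → R} (h : Sol X m u v) : Sol (X.drF j) m u (fun k => v (j.succAbove k)) where
  mem := h.mem
  eqn := fun k => h.eqn _
  G_ne := h.G_ne

theorem Sol.of_drF {X : NDat n (r + 1)} {j : Fin (r + 1)} (hj : X.F j ∈ X.J)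
    {u : Fin (n + 1) → R} {v : Fin (r + 1) → R} (hv : v j = 0)
    (h : Sol (X.drF j) m u (fun k => v (j.succAbove k))) : Sol X m u v where
  mem := h.mem
  eqn := fun k => by
    have h0 := h.mem _ hj
    refine Fin.succAboveCases j ?_ (fun k => ?_) k
    · rw [hv, zero_pow (X.he j).ne', h0]
    · exact h.eqn k
  G_ne := h.G_ne

end sol

section var

variable {n r : ℕ} {m : ℕ}

theorem nogm_drv {X : NDat (n + 1) r} (i : Fin (n + 2)) (hm : 0 < m) (h : NNoGm X m) :
    NNoGm (X.drv i) m := by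
  intro p s hp
  refine h (i.insertNth (α := fun _ => Polynomial ℂ) 0 p) s ⟨fun z hz => ?_, fun z hz => ?_, ?_⟩
  · obtain ⟨k, hk⟩ := hp.ne z hz
    refine ⟨i.succAbove k, ?_⟩
    rwa [Fin.insertNth_apply_succAbove]
  · refine Sol.of_drv (i := i) ?_ ?_
    · simp only [Fin.insertNth_apply_same, Polynomial.eval_zero]
      exact zero_pow hm.ne'
    · simp only [Fin.insertNth_apply_succAbove]
      exact hp.sol z hz
  · obtain ⟨z, z', hz, hz', k, l, h1⟩ := hp.nonconst
    refine ⟨z, z', hz, hz', i.succAbove k, i.succAbove l, ?_⟩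
    rwa [Fin.insertNth_apply_succAbove, Fin.insertNth_apply_succAbove]

theorem nogm_drF {X : NDat n (r + 1)} {j : Fin (r + 1)} (hj : X.F j ∈ X.J) (h : NNoGm X m) :
    NNoGm (X.drF j) m := by
  intro p s hp
  refine h p (j.insertNth (α := fun _ => Polynomial ℂ) 0 s) ⟨hp.ne, fun z hz => ?_, hp.nonconst⟩
  refine Sol.of_drF hj ?_ ?_
  · simp only [Fin.insertNth_apply_same, Polynomial.eval_zero]
  · simp only [Fin.insertNth_apply_succAbove]
    exact hp.sol z hz

theorem pord_drop {M : Type} [Field M] [Algebra ℂ M] {i : Fin (n + 2)} {u : Fin (n + 2) → M}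
    (hu : u i = 0) (hne : ∃ k, u k ≠ 0) (P : Place ℂ M) :
    (∃ k, u (i.succAbove k) ≠ 0) ∧ pord P (fun k => u (i.succAbove k)) = pord P u := by
  have h0 : ∀ k, u k ≠ 0 → ∃ l, i.succAbove l = k := by
    intro k hk
    refine Fin.exists_succAbove_eq fun h => hk ?_
    rw [h, hu]
  have hne' : ∃ k, u (i.succAbove k) ≠ 0 := by
    obtain ⟨k, hk⟩ := hne
    obtain ⟨l, rfl⟩ := h0 k hk
    exact ⟨l, hk⟩
  refine ⟨hne', le_antisymm ?_ ?_⟩
  · obtain ⟨k, hk, h1⟩ := exists_pord P hne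
    obtain ⟨l, rfl⟩ := h0 k hk
    rw [← h1]
    exact pord_le P (f := fun k => u (i.succAbove k)) hk
  · obtain ⟨k, hk, h1⟩ := exists_pord P hne'
    rw [← h1]
    exact pord_le P hk

end var

/-- degree bounds, from the steps -/
theorem t_qa (h_prime : FA.St_prime) (h_zred : KC.St_zred) (h_red : St_nred) (h_adm : St_nadm)
    (h_val : FA.St_fval) (h_num : FA.St_fnum) (h_pht : FA.St_fpht) (h_small : St_nsmall) :
    ∀ (n r : ℕ) (X : NDat n r), QA n r X := by
  classical
  refine nind QA ?_ ?_ ?_ ?_ ?_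
  · intro n r X h
    refine ⟨0, fun m _ hm _ _ => ⟨0, fun M _ _ _ S u v hM => ?_⟩⟩
    exfalso
    rcases h with h | h | h
    · have h1 := hM.sol.mem 1 (by rw [h]; exact Submodule.mem_top)
      rw [map_one] at h1
      exact one_ne_zero h1
    · obtain ⟨i, hi⟩ := hM.ne
      have h1 := hM.sol.mem _ (h i)
      rw [aeval_X] at h1
      exact hi (pow_eq_zero_iff hm.ne' |>.mp h1)
    · exact hM.sol.G_ne (hM.sol.mem _ h)
  · intro n r X a b k l ha hb hab ⟨m1, h1⟩ ⟨m2, h2⟩
    refine ⟨max m1 m2, fun m hm hm0 he hN => ?_⟩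
    obtain ⟨A1, hA1⟩ := h1 m ((le_max_left _ _).trans hm) hm0 he (nogm_add hN)
    obtain ⟨A2, hA2⟩ := h2 m ((le_max_right _ _).trans hm) hm0 he (nogm_add hN)
    refine ⟨max A1 A2, fun M _ _ _ S u v hM => ?_⟩
    have h3 := hM.sol.mem _ hab
    rw [map_mul, mul_eq_zero] at h3
    have hmax : (0 : ℤ) ≤ max (canDeg ℂ M + S.card) 0 := le_max_right _ _
    rcases h3 with h3 | h3
    · refine (hA1 M S u v ⟨hM.ne, hM.sol.add h3 _, hM.off⟩).trans ?_
      exact mul_le_mul_of_nonneg_right (by exact_mod_cast le_max_left _ _) hmax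
    · refine (hA2 M S u v ⟨hM.ne, hM.sol.add h3 _, hM.off⟩).trans ?_
      exact mul_le_mul_of_nonneg_right (by exact_mod_cast le_max_right _ _) hmax
  · intro n r X i hi ⟨m1, h1⟩
    refine ⟨m1, fun m hm hm0 he hN => ?_⟩
    obtain ⟨A, hA⟩ := h1 m hm hm0 he (nogm_drv i hm0 hN)
    refine ⟨A, fun M _ _ _ S u v hM => ?_⟩
    have hui : u i ^ m = 0 := by
      have := hM.sol.mem _ hi
      rwa [aeval_X] at this
    have hui' : u i = 0 := pow_eq_zero_iff hm0.ne' |>.mp hui
    have hpo : ∀ P : Place ℂ M, pord P (fun k => u (i.succAbove k)) = pord P u := fun P =>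
      (pord_drop hui' hM.ne P).2
    obtain ⟨k0, hk0⟩ := hM.ne
    have hne' : ∃ k, u (i.succAbove k) ≠ 0 := by
      obtain ⟨l, rfl⟩ := Fin.exists_succAbove_eq (x := k0) (y := i) (fun h => hk0 (by rw [h, hui']))
      exact ⟨l, hk0⟩
    have h2 := hA M S (fun k => u (i.succAbove k)) v ⟨hne', hM.sol.drv hui, fun P hP => by
      change P.ord (aeval (fun k => u (i.succAbove k) ^ m) (sub0 i X.G)) = _
      rw [aeval_sub0 (u := fun k => u k ^ m) hui, hpo P]
      exact hM.off P hP⟩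
    have h3 : pht ℂ (fun k => u (i.succAbove k)) = pht ℂ u := by
      unfold pht
      rw [finsum_congr hpo]
    rwa [h3] at h2
  · intro n r X j hj ⟨m1, h1⟩
    refine ⟨m1, fun m hm hm0 he hN => ?_⟩
    obtain ⟨A, hA⟩ := h1 m hm hm0 (fun k => he _) (nogm_drF hj hN)
    exact ⟨A, fun M _ _ _ S u v hM => hA M S u _ ⟨hM.ne, hM.sol.drF, hM.off⟩⟩
  · intro n r X ih
    by_cases hR : ZRed X
    · exact ⟨0, fun m _ hm0 he hN => absurd hN (h_red n r X m hm0 he hR)⟩
    obtain ⟨K, i1, i2, x, hx, hgen⟩ := exists_K X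
    have hRL : ¬ Pool.Agent.Y192.KC.RedL x X.FL X.eL := fun h => hR (h_zred n r X K x hx h)
    have hFne : ∀ j, ep x (X.FL j) ≠ 0 := by
      intro j
      refine Fin.cases ?_ (fun j => ?_) j
      · intro h
        exact X.hGI ((hx X.G X.q X.hG).mp h)
      · intro h
        exact X.hFI j ((hx (X.F j) (X.d j) (X.hF j)).mp h)
    obtain ⟨Γ, A, D, S, a, m0, G, C, hs, hG, hk, hj, hC, hcurves⟩ :=
      h_prime n (r + 1) K x X.FL X.eL hFne
    have htop : Γ = ⊤ := by
      by_contra hne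
      exact hRL (redL_of hs hG hk hj hne)
    obtain ⟨g, k, hg, hgI, hgval⟩ := h_val n r X K x hx G hG
    -- the exceptional hypersurface
    have hprodh : (∏ i : Fin (n + 1), (MvPolynomial.X i : MvPolynomial (Fin (n + 1)) ℂ)).IsHomogeneous
        (∑ _i : Fin (n + 1), 1) := IsHomogeneous.prod _ _ _ fun i _ => isHomogeneous_X _ _
    have hprodI : (∏ i : Fin (n + 1), (MvPolynomial.X i : MvPolynomial (Fin (n + 1)) ℂ)) ∉ X.I := by
      intro h
      have hp := X.prime
      obtain ⟨i, _, hi⟩ := (Ideal.IsPrime.prod_mem_iff (hp := X.prime)).mp h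
      exact X.hX i hi
    have hgI' : g * ∏ i : Fin (n + 1), (MvPolynomial.X i : MvPolynomial (Fin (n + 1)) ℂ) ∉ X.I := by
      intro h
      rcases X.prime.mem_or_mem h with h | h
      · exact hgI h
      · exact hprodI h
    obtain ⟨m1, h1⟩ := ih _ _ (hg.mul hprodh) hgI'
    set CC : ℝ := ∑ i : Fin n, C (Pi.single i 1) with hCC
    have hCC0 : 0 ≤ CC := Finset.sum_nonneg fun i _ => hC _
    have hCi : ∀ i : Fin n, C (Pi.single i 1) ≤ CC := fun i =>
      Finset.single_le_sum (f := fun i : Fin n => C (Pi.single i 1)) (fun i _ => hC _)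
        (Finset.mem_univ i)
    refine ⟨max (max m0 m1) ⌈4 * CC⌉₊, fun m hm hm0 he hN => ?_⟩
    have hmC : 4 * CC ≤ (m : ℝ) :=
      (Nat.le_ceil _).trans (by exact_mod_cast (le_max_right _ _).trans hm)
    have hmm0 : m0 ≤ m := ((le_max_left _ _).trans (le_max_left _ _)).trans hm
    have hmm1 : m1 ≤ m := ((le_max_right _ _).trans (le_max_left _ _)).trans hm
    have hee : ∀ j, X.eL j ≠ 0 → X.eL j ∣ m := by
      intro j
      refine Fin.cases ?_ (fun j => ?_) j
      · intro h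
        exact absurd rfl h
      · intro _
        exact he j
    obtain ⟨A1, hA1⟩ := h1 m hmm1 hm0 he (nogm_add hN)
    refine ⟨max A1 ⌈18 * (n : ℝ) * CC⌉₊, fun M _ _ _ T u v hM => ?_⟩
    have hmax : (0 : ℤ) ≤ max (canDeg ℂ M + T.card) 0 := le_max_right _ _
    by_cases hexc : aeval (fun i => u i ^ m)
        (g * ∏ i : Fin (n + 1), (MvPolynomial.X i : MvPolynomial (Fin (n + 1)) ℂ)) = 0
    · refine (hA1 M T u v ⟨hM.ne, hM.sol.add hexc _, hM.off⟩).trans ?_
      exact mul_le_mul_of_nonneg_right (by exact_mod_cast le_max_left _ _) hmax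
    rw [map_mul, map_prod, mul_eq_zero, not_or, Finset.prod_eq_zero_iff] at hexc
    push Not at hexc
    obtain ⟨h2, h3⟩ := hexc
    have hu : ∀ i, u i ≠ 0 := by
      intro i h4
      refine h3 i (Finset.mem_univ i) ?_
      rw [aeval_X, h4, zero_pow hm0.ne']
    by_cases hsm : canDeg ℂ M < 0 ∧ canDeg ℂ M + T.card ≤ 0
    · exact (h_small n r (ofZ X) m hm0 he hN M T u v hsm.1 hsm.2 hM).trans
        (mul_nonneg (Int.natCast_nonneg _) hmax)
    -- the main case
    let y : Fin n → Mˣ := fun i => Units.mk0 ((u i.succ / u 0) ^ m)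
      (pow_ne_zero _ (div_ne_zero (hu _) (hu 0)))
    have hy : ∀ i, (y i : M) = (u i.succ / u 0) ^ m := fun i => rfl
    have hnum := h_num n CC m hCC0 hmC hm0 M y T (fun i z _ => by
      rw [hy, z.ord_pow]
      exact dvd_mul_right _ _) (fun E hE B hB hTB i => by
        let c : FA.Curve n := ⟨M, y, E, hE, B, hB⟩
        obtain ⟨ha, hv⟩ := h_adm n r X m hm0 he K x hx c T u v hu hM hy (fun z hz => hTB hz)
        have hev : c.ev G ≠ 0 := by
          intro h
          have h4 := (FA.ev_eq_zero c G).mp h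
          refine hgval M y (fun i => u i ^ m) (fun i => pow_ne_zero _ (hu i)) (fun i => ?_) h2 h4
          rw [hy, div_pow]
        have h5 := hcurves m hmm0 hee c ha hv hev (Pi.single i 1)
          (by rw [htop]; exact Submodule.mem_top)
        have hbB : 0 ≤ c.bB := Finset.sum_nonneg fun z _ =>
          add_nonneg zero_le_one (le_max_right _ _)
        exact h5.trans (mul_le_mul_of_nonneg_right (hCi i) hbB))
    have hpht := h_pht n m hm0 M u hu
    have hR1 : ((m : ℤ) * pht ℂ u : ℝ) ≤ n * (2 * CC * max (2 * canDeg ℂ M + 3 * (T.card : ℝ)) 0) := by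
      have h6 : ((m * pht ℂ u : ℤ) : ℝ) ≤
          ((∑ i : Fin n, ∑ᶠ z : Place ℂ M, |z.ord ((u i.succ / u 0) ^ m)| : ℤ) : ℝ) := by
        exact_mod_cast hpht
      have h7 : ((∑ i : Fin n, ∑ᶠ z : Place ℂ M, |z.ord ((u i.succ / u 0) ^ m)| : ℤ) : ℝ) ≤
          ∑ _i : Fin n, (2 * CC * max (2 * canDeg ℂ M + 3 * (T.card : ℝ)) 0) := by
        rw [Int.cast_sum]
        exact Finset.sum_le_sum fun i _ => hnum i
      rw [Finset.sum_const, Finset.card_univ, Fintype.card_fin, nsmul_eq_mul] at h7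
      push_cast at h6 ⊢
      push_cast at h7
      exact h6.trans h7
    have hR2 : max (2 * (canDeg ℂ M : ℝ) + 3 * (T.card : ℝ)) 0 ≤
        9 * ((max (canDeg ℂ M + T.card) 0 : ℤ) : ℝ) := by
      have h8 : max (2 * canDeg ℂ M + 3 * (T.card : ℤ)) 0 ≤ 9 * max (canDeg ℂ M + T.card) 0 := by
        by_cases hc : canDeg ℂ M < 0
        · have h9 := FA.canDeg_of_neg hc
          have h10 : 0 < canDeg ℂ M + T.card := by
            by_contra hcon
            exact hsm ⟨hc, not_lt.mp hcon⟩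
          omega
        · omega
      exact_mod_cast h8
    have hfin : pht ℂ u ≤ (⌈18 * (n : ℝ) * CC⌉₊ : ℤ) * max (canDeg ℂ M + T.card) 0 := by
      by_contra hcon
      rw [not_le] at hcon
      have h12 : (0 : ℝ) ≤ ((max (canDeg ℂ M + T.card) 0 : ℤ) : ℝ) := by
        exact_mod_cast le_max_right _ _
      have h13 : (18 * (n : ℝ) * CC) * ((max (canDeg ℂ M + T.card) 0 : ℤ) : ℝ) ≤
          (⌈18 * (n : ℝ) * CC⌉₊ : ℝ) * ((max (canDeg ℂ M + T.card) 0 : ℤ) : ℝ) :=
        mul_le_mul_of_nonneg_right (Nat.le_ceil _) h12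
      have h14 : (1 : ℝ) ≤ m := by exact_mod_cast hm0
      have h15 : (0 : ℝ) ≤ n := Nat.cast_nonneg _
      have h16 : (n : ℝ) * (2 * CC * max (2 * canDeg ℂ M + 3 * (T.card : ℝ)) 0) ≤
          (18 * (n : ℝ) * CC) * ((max (canDeg ℂ M + T.card) 0 : ℤ) : ℝ) := by
        have h17 := mul_le_mul_of_nonneg_left hR2 (mul_nonneg (mul_nonneg h15 zero_le_two) hCC0)
        linarith
      have h18 : (0 : ℝ) ≤ (⌈18 * (n : ℝ) * CC⌉₊ : ℝ) * ((max (canDeg ℂ M + T.card) 0 : ℤ) : ℝ) :=
        mul_nonneg (Nat.cast_nonneg _) h12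
      have h21 : ((⌈18 * (n : ℝ) * CC⌉₊ : ℝ)) * ((max (canDeg ℂ M + T.card) 0 : ℤ) : ℝ) <
          pht ℂ u := by
        exact_mod_cast hcon
      have h19 : (pht ℂ u : ℝ) ≤ m * pht ℂ u := by
        have h20 : (0 : ℝ) ≤ pht ℂ u := h18.trans h21.le
        nlinarith
      have h22 : ((m : ℤ) * pht ℂ u : ℝ) = m * pht ℂ u := by push_cast; ring
      rw [h22] at hR1
      linarith
    exact hfin.trans (mul_le_mul_of_nonneg_right (by exact_mod_cast le_max_right _ _) hmax)

end Pool.Agent.Y192.FN
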