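import Pool.Agent.Y192.FN.Main
import Pool.Agent.Y192.FA.GAll
import Pool.Agent.Y192.KC.All2
import Pool.Agent.Y492.FN.Nredp
import Pool.Agent.Y288.FN.Nspec
import Pool.Agent.Y288.FN.Nrat
import Pool.Agent.Y288.FN.Qd
import Pool.Agent.Y212.FN.Nadm
import Pool.Agent.Y192.FN.Spp
import Pool.Agent.Y220.FN.Nred
import Pool.Agent.Y455.FN.Ngm
import Pool.Agent.Y510.FN.Ndisc
import Pool.Agent.Y73.FN.Nexp

/-!
Covers of arbitrary closed subsets of projective space: all steps together.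
-/

set_option autoImplicit false

namespace Pool.Agent.Y192.FN

theorem qs_all : ∀ (n r : ℕ) (X : NDat n r), QS n r X :=
  t_qs FA.prime_all Pool.Agent.Y658.KZ.t_zred Pool.Agent.Y492.FN.t_nredp
    Pool.Agent.Y288.FN.t_nspec Pool.Agent.Y212.FN.t_nadm Pool.Agent.Y448.FG.t_fval
    Pool.Agent.Y109.FG.t_fnum Pool.Agent.Y824.FG.t_fpht Spp.t_nsmallp

theorem qd_all : ∀ (n r : ℕ) (X : NDat n r), QD n r X :=
  Pool.Agent.Y288.FN.t_qd KC.prime_all Pool.Agent.Y658.KZ.t_zred Pool.Agent.Y220.FN.t_nred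
    Pool.Agent.Y510.FN.t_ndisc

theorem mainN_all {n r : ℕ} (X : NDat n r) :
    ∃ m0 A : ℕ, ∀ m, m0 ≤ m → (∀ j, X.e j ∣ m) →
      NSpU X A m ∧ [NAlg X m, NEul X m, NEach X m, NPic X m, NBro X m, NNoGm X m].TFAE ∧
      (X.G = 1 → (NNoGm X m ↔ NNoRat X m)) :=
  mainN qs_all qd_all Pool.Agent.Y455.FN.t_ngm Pool.Agent.Y73.FN.t_nexp
    Pool.Agent.Y288.FN.t_nrat X

end Pool.Agent.Y192.FN
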