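import Pool.Agent.Y192.KC.ZDefs
import Pool.Agent.Y192.FA.GDefs

/-!
Covers of arbitrary closed subsets of projective space (which may be reducible and may lie in
coordinate hyperplanes): definitions, and statements of the steps.
-/

set_option autoImplicit false

namespace Pool.Agent.Y192.FN

open MvPolynomial Metric FF Pool.Agent.W603.LV Pool.Agent.W603.PV Pool.Agent.Y192.OG
open Pool.Agent.Y192.KC (Cov ZCov ZRed laur)

/-- The data of a cover of a closed subset of projective space, which is given by a homogeneous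
ideal `J`: forms `F j` of degree `d j`, a form `G` of degree `q`, and exponents `e j`. -/
structure NDat (n r : ℕ) where
  F : Fin r → MvPolynomial (Fin (n + 1)) ℂ
  d : Fin r → ℕ
  e : Fin r → ℕ
  G : MvPolynomial (Fin (n + 1)) ℂ
  q : ℕ
  J : Ideal (MvPolynomial (Fin (n + 1)) ℂ)
  hF : ∀ j, (F j).IsHomogeneous (d j)
  he : ∀ j, 0 < e j
  hG : G.IsHomogeneous q
  hJ : ∀ f ∈ J, ∀ k, homogeneousComponent k f ∈ J

section defs

variable {n r : ℕ} (X : NDat n r) (m : ℕ)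

/-- `(u, v)` satisfies the equations of the cover `X m`: `f (u 0 ^ m, …, u n ^ m) = 0` for `f` in
`J`, and `v j ^ e j = F j (u 0 ^ m, …, u n ^ m)`, and `G (u 0 ^ m, …, u n ^ m) ≠ 0`. -/
structure Sol {R : Type} [CommRing R] [Algebra ℂ R] (u : Fin (n + 1) → R) (v : Fin r → R) :
    Prop where
  mem : ∀ f ∈ X.J, aeval (fun i => u i ^ m) f = 0
  eqn : ∀ j, v j ^ X.e j = aeval (fun i => u i ^ m) (X.F j)
  G_ne : aeval (fun i => u i ^ m) X.G ≠ 0

/-- `u`, `v` are elements of the function field `M` of a smooth projective curve, and homogeneous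
coordinates of a morphism from the curve to the projective variety `X m`, which maps all points
outside of the finite set `S` to the open set `X° m` where `G (t 0 ^ m, …, t n ^ m)` does not
vanish. -/
structure NMap {M : Type} [Field M] [Algebra ℂ M] (S : Finset (Place ℂ M)) (u : Fin (n + 1) → M)
    (v : Fin r → M) : Prop where
  ne : ∃ i, u i ≠ 0
  sol : Sol X m u v
  off : ∀ P : Place ℂ M, P ∉ S → P.ord (aeval (fun i => u i ^ m) X.G) = m * X.q * pord P u

/-- Algebraically hyperbolic: the degrees of the maps from curves to `X° m` are at most `A` times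
the maximum of `0` and `2 g - 2 + |S|`. -/
def NAlg : Prop :=
  ∃ A : ℕ, ∀ (M : Type) [Field M] [Algebra ℂ M] [IsFF ℂ M] (S : Finset (Place ℂ M))
    (u : Fin (n + 1) → M) (v : Fin r → M), NMap X m S u v →
      pht ℂ u ≤ A * max (canDeg ℂ M + S.card) 0

/-- The degrees of the maps from curves to `X° m` are bounded by a function of `2 g - 2 + |S|`. -/
def NEul : Prop :=
  ∃ β : ℤ → ℤ, ∀ (M : Type) [Field M] [Algebra ℂ M] [IsFF ℂ M] (S : Finset (Place ℂ M))
    (u : Fin (n + 1) → M) (v : Fin r → M), NMap X m S u v → pht ℂ u ≤ β (canDeg ℂ M + S.card)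

/-- The degrees of the maps from each curve to `X° m` are bounded. -/
def NEach : Prop :=
  ∀ (M : Type) [Field M] [Algebra ℂ M] [IsFF ℂ M] (S : Finset (Place ℂ M)), ∃ b : ℤ,
    ∀ (u : Fin (n + 1) → M) (v : Fin r → M), NMap X m S u v → pht ℂ u ≤ b

/-- holomorphic maps from the punctured disc to `X° m`, in homogeneous coordinates -/
structure NDisc (u : ℂ → Fin (n + 1) → ℂ) (v : ℂ → Fin r → ℂ) : Prop where
  diffu : DifferentiableOn ℂ u (ball 0 1 \ {0})
  diffv : DifferentiableOn ℂ v (ball 0 1 \ {0})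
  ne : ∀ z ∈ ball (0 : ℂ) 1 \ {0}, u z ≠ 0
  sol : ∀ z ∈ ball (0 : ℂ) 1 \ {0}, Sol X m (u z) (v z)

/-- the map extends to the origin, as a map to the projective variety `X m` in the weighted
projective space -/
def NExt (u : ℂ → Fin (n + 1) → ℂ) (v : ℂ → Fin r → ℂ) : Prop :=
  ∃ ρ : ℝ, 0 < ρ ∧ ∃ (u' : ℂ → Fin (n + 1) → ℂ) (v' : ℂ → Fin r → ℂ),
    DifferentiableOn ℂ u' (ball 0 ρ) ∧ DifferentiableOn ℂ v' (ball 0 ρ) ∧
    (∀ z ∈ ball (0 : ℂ) ρ, u' z ≠ 0) ∧
    ∀ z ∈ ball (0 : ℂ) ρ \ {0}, ∃ s : ℂ, s ≠ 0 ∧ (∀ i, u z i = s * u' z i) ∧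
      ∀ j, v z j = s ^ (m * X.d j / X.e j) * v' z j

/-- Picard hyperbolic: all holomorphic maps from the punctured disc to `X° m` extend. -/
def NPic : Prop := ∀ u v, NDisc X m u v → NExt X m u v

/-- Brody hyperbolic: all entire curves in `X° m` are constant. -/
def NBro : Prop :=
  ∀ (u : ℂ → Fin (n + 1) → ℂ) (v : ℂ → Fin r → ℂ), Differentiable ℂ u → Differentiable ℂ v →
    (∀ z, u z ≠ 0) → (∀ z, Sol X m (u z) (v z)) → ∀ z z' i j, u z i * u z' j = u z j * u z' i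

/-- nonconstant morphisms from the multiplicative group to `X° m`, in homogeneous coordinates -/
structure NGm (p : Fin (n + 1) → Polynomial ℂ) (s : Fin r → Polynomial ℂ) : Prop where
  ne : ∀ z : ℂ, z ≠ 0 → ∃ i, (p i).eval z ≠ 0
  sol : ∀ z : ℂ, z ≠ 0 → Sol X m (fun i => (p i).eval z) (fun j => (s j).eval z)
  nonconst : ∃ z z' : ℂ, z ≠ 0 ∧ z' ≠ 0 ∧ ∃ i j,
    (p i).eval z * (p j).eval z' ≠ (p j).eval z * (p i).eval z'

/-- all morphisms from the multiplicative group to `X° m` are constant -/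
def NNoGm : Prop := ∀ p s, ¬ NGm X m p s

end defs

/-- a cover of an irreducible variety -/
noncomputable def ofZ {n r : ℕ} (X : ZCov n r) : NDat n r where
  F := X.F
  d := X.d
  e := X.e
  G := X.G
  q := X.q
  J := X.I
  hF := X.hF
  he := X.he
  hG := X.hG
  hJ := X.hom

/-- the restriction to the hypersurface `g = 0` -/
noncomputable def NDat.add {n r : ℕ} (X : NDat n r) (g : MvPolynomial (Fin (n + 1)) ℂ)
    (h : ∀ f ∈ X.J ⊔ Ideal.span {g}, ∀ k, homogeneousComponent k f ∈ X.J ⊔ Ideal.span {g}) :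
    NDat n r where
  F := X.F
  d := X.d
  e := X.e
  G := X.G
  q := X.q
  J := X.J ⊔ Ideal.span {g}
  hF := X.hF
  he := X.he
  hG := X.hG
  hJ := h

/-! The steps. -/

/-- maps to the covers are admissible -/
def St_nadm : Prop :=
  ∀ (n r : ℕ) (X : ZCov n r) (m : ℕ), 0 < m → (∀ j, X.e j ∣ m) →
    ∀ (K : Type) [Field K] [Algebra ℂ K] (x : Fin n → Kˣ),
    (∀ (f : MvPolynomial (Fin (n + 1)) ℂ) (k : ℕ), f.IsHomogeneous k →
      (ep x (laur f) = 0 ↔ f ∈ X.I)) →
    ∀ (c : FA.Curve n) (S : Finset (Place ℂ c.L)) (u : Fin (n + 1) → c.L) (v : Fin r → c.L),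
      (∀ i, u i ≠ 0) → NMap (ofZ X) m S u v →
      (∀ i : Fin n, (c.x i : c.L) = (u i.succ / u 0) ^ m) → (∀ z ∈ S, z ∈ c.B) →
      FA.AdmG X.FL X.eL m c ∧ ∀ g, ep x g = 0 → c.ev g = 0

/-- maps from the projective line without at most two points -/
def St_nsmall : Prop :=
  ∀ (n r : ℕ) (X : NDat n r) (m : ℕ), 0 < m → (∀ j, X.e j ∣ m) → NNoGm X m →
    ∀ (M : Type) [Field M] [Algebra ℂ M] [IsFF ℂ M] (S : Finset (Place ℂ M))
      (u : Fin (n + 1) → M) (v : Fin r → M), canDeg ℂ M < 0 → canDeg ℂ M + S.card ≤ 0 →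
      NMap X m S u v → pht ℂ u ≤ 0

/-- from bounded degrees to the multiplicative group -/
def St_ngm : Prop :=
  ∀ (n r : ℕ) (X : NDat n r) (m : ℕ), 0 < m → (∀ j, X.e j ∣ m) → NEach X m → NNoGm X m

/-- one-parameter groups acting on the cover -/
def St_nred : Prop :=
  ∀ (n r : ℕ) (X : ZCov n r) (m : ℕ), 0 < m → (∀ j, X.e j ∣ m) → ZRed X → ¬ NNoGm (ofZ X) m

/-- big Picard outside of an exceptional set -/
def St_ndisc : Prop :=
  ∀ (n r : ℕ) (X : ZCov n r) (K : Type) [Field K] [Algebra ℂ K] (x : Fin n → Kˣ) (m0 : ℕ)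
    (G0 : Lau n),
    (∀ (f : MvPolynomial (Fin (n + 1)) ℂ) (k : ℕ), f.IsHomogeneous k →
      (ep x (laur f) = 0 ↔ f ∈ X.I)) → ep x G0 ≠ 0 →
    (∀ m, m0 ≤ m → (∀ j, X.eL j ≠ 0 → X.eL j ∣ m) → ∀ c : OG.Curve n, KC.AdmG X.FL X.eL m c →
        (∀ g, ep x g = 0 → c.ev g = 0) → c.ev G0 ≠ 0 → ∀ γ, KC.MInf c γ) →
    ∃ (g : MvPolynomial (Fin (n + 1)) ℂ) (k : ℕ), g.IsHomogeneous k ∧ g ∉ X.I ∧
      ∀ m, m0 ≤ m → 0 < m → (∀ j, X.e j ∣ m) → ∀ u v, NDisc (ofZ X) m u v →
        (∃ z ∈ ball (0 : ℂ) 1 \ {0}, eval (fun i => u z i ^ m) g ≠ 0) → NExt (ofZ X) m u v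

/-- from punctured discs to entire curves, and to the multiplicative group -/
def St_nexp : Prop :=
  ∀ (n r : ℕ) (X : NDat n r) (m : ℕ), 0 < m → (∀ j, X.e j ∣ m) →
    (NPic X m → NBro X m) ∧ (NBro X m → NNoGm X m)

end Pool.Agent.Y192.FN
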