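import Pool.Agent.Y192.FN.Defs

/-!
Covers of arbitrary closed subsets of projective space: Noetherian induction.
-/

set_option autoImplicit false

namespace Pool.Agent.Y192.FN

open MvPolynomial Metric FF Pool.Agent.W603.LV Pool.Agent.W603.PV Pool.Agent.Y192.OG
open Pool.Agent.Y192.KC (Cov ZCov ZRed laur)

section ops

attribute [local instance] MvPolynomial.gradedAlgebra

/-- the substitution of zero for the variable `i` -/
noncomputable def sub0 {n : ℕ} (i : Fin (n + 2)) :
    MvPolynomial (Fin (n + 2)) ℂ →ₐ[ℂ] MvPolynomial (Fin (n + 1)) ℂ :=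
  aeval (i.insertNth (α := fun _ => MvPolynomial (Fin (n + 1)) ℂ) 0 MvPolynomial.X)

theorem sub0_surj {n : ℕ} (i : Fin (n + 2)) : Function.Surjective (sub0 i) := by
  intro f
  refine ⟨rename i.succAbove f, ?_⟩
  unfold sub0
  rw [aeval_rename]
  have h : (i.insertNth (α := fun _ => MvPolynomial (Fin (n + 1)) ℂ) 0 MvPolynomial.X) ∘
      i.succAbove = MvPolynomial.X := by
    funext k
    rw [Function.comp_apply, Fin.insertNth_apply_succAbove]
  rw [h, aeval_X_left, AlgHom.id_apply]

theorem sub0_hom {n : ℕ} (i : Fin (n + 2)) {f : MvPolynomial (Fin (n + 2)) ℂ} {k : ℕ}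
    (hf : f.IsHomogeneous k) : (sub0 i f).IsHomogeneous k := by
  unfold sub0
  rw [← Nat.one_mul k]
  refine hf.aeval _ fun l => ?_
  refine Fin.succAboveCases i ?_ (fun k => ?_) l
  · rw [Fin.insertNth_apply_same]
    exact isHomogeneous_zero _ _ _
  · rw [Fin.insertNth_apply_succAbove]
    exact isHomogeneous_X _ _

theorem sub0_comp {n : ℕ} (i : Fin (n + 2)) (f : MvPolynomial (Fin (n + 2)) ℂ) (k : ℕ) :
    homogeneousComponent k (sub0 i f) = sub0 i (homogeneousComponent k f) := by
  classical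
  conv_lhs => rw [← sum_homogeneousComponent f]
  rw [map_sum, map_sum]
  have h1 : ∀ l, homogeneousComponent k (sub0 i (homogeneousComponent l f)) =
      if l = k then sub0 i (homogeneousComponent k f) else 0 := by
    intro l
    have h2 := sub0_hom i (homogeneousComponent_isHomogeneous l f)
    rw [homogeneousComponent_of_mem ((mem_homogeneousSubmodule _ _).mpr h2)]
    by_cases h : l = k
    · rw [if_pos h.symm, if_pos h, h]
    · rw [if_neg (Ne.symm h), if_neg h]
  rw [Finset.sum_congr rfl fun l _ => h1 l, Finset.sum_ite_eq']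
  split_ifs with h
  · rfl
  · rw [homogeneousComponent_eq_zero, map_zero]
    rw [Finset.mem_range, not_lt] at h
    omega

/-- dropping a coordinate which vanishes -/
noncomputable def NDat.drv {n r : ℕ} (X : NDat (n + 1) r) (i : Fin (n + 2)) : NDat n r where
  F := fun j => sub0 i (X.F j)
  d := X.d
  e := X.e
  G := sub0 i X.G
  q := X.q
  J := X.J.map (sub0 i)
  hF := fun j => sub0_hom i (X.hF j)
  he := X.he
  hG := sub0_hom i X.hG
  hJ := fun f hf k => by
    obtain ⟨g, hg, rfl⟩ := (Ideal.mem_map_iff_of_surjective _ (sub0_surj i)).mp hf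
    rw [sub0_comp]
    exact Ideal.mem_map_of_mem _ (X.hJ g hg k)

/-- dropping an equation `w j ^ e j = F j` where `F j` vanishes -/
noncomputable def NDat.drF {n r : ℕ} (X : NDat n (r + 1)) (j : Fin (r + 1)) : NDat n r where
  F := fun k => X.F (j.succAbove k)
  d := fun k => X.d (j.succAbove k)
  e := fun k => X.e (j.succAbove k)
  G := X.G
  q := X.q
  J := X.J
  hF := fun k => X.hF _
  he := fun k => X.he _
  hG := X.hG
  hJ := X.hJ

/-- sums of homogeneous ideals and principal ideals -/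
theorem hom_add {n : ℕ} {J : Ideal (MvPolynomial (Fin (n + 1)) ℂ)}
    (hJ : ∀ f ∈ J, ∀ k, homogeneousComponent k f ∈ J) {g : MvPolynomial (Fin (n + 1)) ℂ} {k : ℕ}
    (hg : g.IsHomogeneous k) :
    ∀ f ∈ J ⊔ Ideal.span {g}, ∀ k, homogeneousComponent k f ∈ J ⊔ Ideal.span {g} := by
  classical
  intro f hf l
  obtain ⟨a, ha, b, hb, rfl⟩ := Submodule.mem_sup.mp hf
  obtain ⟨c, rfl⟩ := Ideal.mem_span_singleton'.mp hb
  rw [map_add]
  refine Ideal.add_mem _ (Ideal.mem_sup_left (hJ a ha l)) (Ideal.mem_sup_right ?_)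
  conv => rw [← sum_homogeneousComponent c]
  rw [Finset.sum_mul, map_sum]
  refine Ideal.sum_mem _ fun i _ => ?_
  have h1 : (homogeneousComponent i c * g).IsHomogeneous (i + k) :=
    (homogeneousComponent_isHomogeneous i c).mul hg
  rw [homogeneousComponent_of_mem ((mem_homogeneousSubmodule _ _).mpr h1)]
  split_ifs
  · exact Ideal.mem_span_singleton'.mpr ⟨_, rfl⟩
  · exact Ideal.zero_mem _

/-- homogeneous ideals which are prime for forms are prime -/
theorem prime_of {n : ℕ} {J : Ideal (MvPolynomial (Fin (n + 1)) ℂ)}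
    (hJ : ∀ f ∈ J, ∀ k, homogeneousComponent k f ∈ J) (hne : J ≠ ⊤)
    (h : ∀ (a b : MvPolynomial (Fin (n + 1)) ℂ) (k l : ℕ), a.IsHomogeneous k → b.IsHomogeneous l →
      a * b ∈ J → a ∈ J ∨ b ∈ J) : J.IsPrime := by
  have hh : J.IsHomogeneous (homogeneousSubmodule (Fin (n + 1)) ℂ) := by
    intro i f hf
    have h1 := hJ f hf i
    rw [← decomposition.decompose'_apply] at h1
    exact h1
  refine hh.isPrime_of_homogeneous_mem_or_mem hne fun {a b} ha hb hab => ?_
  obtain ⟨k, hk⟩ := ha
  obtain ⟨l, hl⟩ := hb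
  exact h a b k l hk hl hab

end ops

/-- **Noetherian induction.** -/
theorem nind (Q : ∀ (n r : ℕ), NDat n r → Prop)
    (h_empty : ∀ (n r : ℕ) (X : NDat n r), (X.J = ⊤ ∨ (∀ i, MvPolynomial.X i ∈ X.J) ∨ X.G ∈ X.J) →
      Q n r X)
    (h_union : ∀ (n r : ℕ) (X : NDat n r) (a b : MvPolynomial (Fin (n + 1)) ℂ) (k l : ℕ)
      (ha : a.IsHomogeneous k) (hb : b.IsHomogeneous l), a * b ∈ X.J →
      Q n r (X.add a (hom_add X.hJ ha)) → Q n r (X.add b (hom_add X.hJ hb)) → Q n r X)
    (h_var : ∀ (n r : ℕ) (X : NDat (n + 1) r) (i : Fin (n + 2)), MvPolynomial.X i ∈ X.J →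
      Q n r (X.drv i) → Q (n + 1) r X)
    (h_cov : ∀ (n r : ℕ) (X : NDat n (r + 1)) (j : Fin (r + 1)), X.F j ∈ X.J → Q n r (X.drF j) →
      Q n (r + 1) X)
    (h_core : ∀ (n r : ℕ) (X : ZCov n r), (∀ (g : MvPolynomial (Fin (n + 1)) ℂ) (k : ℕ)
      (hg : g.IsHomogeneous k), g ∉ X.I → Q n r ((ofZ X).add g (hom_add (ofZ X).hJ hg))) →
      Q n r (ofZ X)) : ∀ (n r : ℕ) (X : NDat n r), Q n r X := by
  classical
  have key : ∀ (n r : ℕ), (∀ X : NDat n r, (∃ i, MvPolynomial.X i ∈ X.J) → Q n r X) →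
      (∀ X : NDat n r, (∃ j, X.F j ∈ X.J) → Q n r X) → ∀ X : NDat n r, Q n r X := by
    intro n r hv hc
    have hwf : ∀ (J : Ideal (MvPolynomial (Fin (n + 1)) ℂ)), ∀ X : NDat n r, X.J = J → Q n r X := by
      intro J
      induction J using WellFoundedGT.induction with
      | ind J ih =>
      intro X hXJ
      subst hXJ
      by_cases h1 : X.J = ⊤ ∨ X.G ∈ X.J
      · refine h_empty n r X ?_
        rcases h1 with h1 | h1
        · exact Or.inl h1
        · exact Or.inr (Or.inr h1)
      push Not at h1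
      by_cases h2 : ∃ i, MvPolynomial.X i ∈ X.J
      · exact hv X h2
      by_cases h3 : ∃ j, X.F j ∈ X.J
      · exact hc X h3
      push Not at h2 h3
      have hlt : ∀ g : MvPolynomial (Fin (n + 1)) ℂ, g ∉ X.J → X.J < X.J ⊔ Ideal.span {g} := by
        intro g hg
        refine lt_of_le_of_ne le_sup_left fun h => hg ?_
        rw [h]
        exact Ideal.mem_sup_right (Ideal.mem_span_singleton_self g)
      by_cases h4 : ∀ (a b : MvPolynomial (Fin (n + 1)) ℂ) (k l : ℕ), a.IsHomogeneous k →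
        b.IsHomogeneous l → a * b ∈ X.J → a ∈ X.J ∨ b ∈ X.J
      · let Z : ZCov n r :=
          { F := X.F
            d := X.d
            e := X.e
            G := X.G
            q := X.q
            hF := X.hF
            hF0 := fun j h => h3 j (by rw [h]; exact X.J.zero_mem)
            he := X.he
            hG := X.hG
            hG0 := fun h => h1.2 (by rw [h]; exact X.J.zero_mem)
            I := X.J
            prime := prime_of X.hJ h1.1 h4
            hom := X.hJ
            hX := h2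
            hFI := h3
            hGI := h1.2 }
        have hZ : ofZ Z = X := rfl
        rw [← hZ]
        refine h_core n r Z fun g k hg hgI => ?_
        exact ih _ (hlt g hgI) _ rfl
      · push Not at h4
        obtain ⟨a, b, k, l, ha, hb, hab, hna, hnb⟩ := h4
        exact h_union n r X a b k l ha hb hab (ih _ (hlt a hna) _ rfl) (ih _ (hlt b hnb) _ rfl)
    exact fun X => hwf X.J X rfl
  intro n
  induction n with
  | zero =>
    have hv : ∀ (r : ℕ) (X : NDat 0 r), (∃ i, MvPolynomial.X i ∈ X.J) → Q 0 r X := by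
      rintro r X ⟨i, hi⟩
      refine h_empty 0 r X (Or.inr (Or.inl fun k => ?_))
      rw [show k = i from Fin.ext (by omega)]
      exact hi
    intro r
    induction r with
    | zero => exact key 0 0 (hv 0) fun X ⟨j, _⟩ => j.elim0
    | succ r ihr => exact key 0 (r + 1) (hv _) fun X ⟨j, hj⟩ => h_cov 0 r X j hj (ihr _)
  | succ n ihn =>
    have hv : ∀ (r : ℕ) (X : NDat (n + 1) r), (∃ i, MvPolynomial.X i ∈ X.J) → Q (n + 1) r X :=
      fun r X ⟨i, hi⟩ => h_var n r X i hi (ihn r _)
    intro r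
    induction r with
    | zero => exact key (n + 1) 0 (hv 0) fun X ⟨j, _⟩ => j.elim0
    | succ r ihr => exact key (n + 1) (r + 1) (hv _) fun X ⟨j, hj⟩ => h_cov (n + 1) r X j hj (ihr _)

/-- covers without multiplicative groups are algebraically hyperbolic -/
def QA (n r : ℕ) (X : NDat n r) : Prop :=
  ∃ m0 : ℕ, ∀ m, m0 ≤ m → 0 < m → (∀ j, X.e j ∣ m) → NNoGm X m → NAlg X m

/-- covers without multiplicative groups are Picard hyperbolic -/
def QD (n r : ℕ) (X : NDat n r) : Prop :=
  ∃ m0 : ℕ, ∀ m, m0 ≤ m → 0 < m → (∀ j, X.e j ∣ m) → NNoGm X m → NPic X m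

/-- the Picard property, from the steps -/
def St_qd : Prop :=
  KC.St_prime → KC.St_zred → St_nred → St_ndisc → ∀ (n r : ℕ) (X : NDat n r), QD n r X

end Pool.Agent.Y192.FN
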