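import Pool.Agent.Y192.FN.Defs

/-!
Covers of arbitrary closed subsets of projective space, the projective case: rational curves.
-/

set_option autoImplicit false

namespace Pool.Agent.Y192.FN

open MvPolynomial Metric FF Pool.Agent.W603.LV Pool.Agent.W603.PV Pool.Agent.Y192.OG

/-- nonconstant morphisms from the affine line to `X° m`, in homogeneous coordinates; if `X° m` is
projective, these are the rational curves -/
structure NLine {n r : ℕ} (X : NDat n r) (m : ℕ) (p : Fin (n + 1) → Polynomial ℂ)
    (s : Fin r → Polynomial ℂ) : Prop where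
  ne : ∀ z : ℂ, ∃ i, (p i).eval z ≠ 0
  sol : ∀ z : ℂ, Sol X m (fun i => (p i).eval z) (fun j => (s j).eval z)
  nonconst : ∃ z z' : ℂ, ∃ i j, (p i).eval z * (p j).eval z' ≠ (p j).eval z * (p i).eval z'

/-- there are no rational curves in the projective variety `X m` -/
def NNoRat {n r : ℕ} (X : NDat n r) (m : ℕ) : Prop := ∀ p s, ¬ NLine X m p s

/-- rational curves and multiplicative groups in projective varieties -/
def St_nrat : Prop :=
  ∀ (n r : ℕ) (X : NDat n r) (m : ℕ), 0 < m → (∀ j, X.e j ∣ m) → X.G = 1 →
    (NNoGm X m ↔ NNoRat X m)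

end Pool.Agent.Y192.FN
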