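import Pool.Agent.Y192.FN.SpMain
import Pool.Agent.Y192.FN.Rat

/-!
Covers of arbitrary closed subsets of projective space: the equivalences.
-/

set_option autoImplicit false

namespace Pool.Agent.Y192.FN

open MvPolynomial Metric FF Pool.Agent.W603.LV Pool.Agent.W603.PV Pool.Agent.Y192.OG

variable {n r : ℕ}

theorem alg_eul {X : NDat n r} {m : ℕ} (h : NAlg X m) : NEul X m := by
  obtain ⟨A, hA⟩ := h
  exact ⟨fun a => A * max a 0, hA⟩

theorem eul_each {X : NDat n r} {m : ℕ} (h : NEul X m) : NEach X m := by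
  obtain ⟨β, hβ⟩ := h
  exact fun M _ _ _ S => ⟨β (canDeg ℂ M + S.card), hβ M S⟩

theorem mainN (h_qs : ∀ (n r : ℕ) (X : NDat n r), QS n r X)
    (h_qd : ∀ (n r : ℕ) (X : NDat n r), QD n r X) (h_gm : St_ngm) (h_exp : St_nexp)
    (h_rat : St_nrat) (X : NDat n r) :
    ∃ m0 A : ℕ, ∀ m, m0 ≤ m → (∀ j, X.e j ∣ m) →
      NSpU X A m ∧ [NAlg X m, NEul X m, NEach X m, NPic X m, NBro X m, NNoGm X m].TFAE ∧
      (X.G = 1 → (NNoGm X m ↔ NNoRat X m)) := by
  obtain ⟨m1, A, h1⟩ := h_qs n r X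
  obtain ⟨m2, h2⟩ := h_qd n r X
  refine ⟨max 1 (max m1 m2), A, fun m hm he => ?_⟩
  have hm0 : 0 < m := lt_of_lt_of_le one_pos ((le_max_left _ _).trans hm)
  have a1 := h1 m (((le_max_left _ _).trans (le_max_right _ _)).trans hm) hm0 he
  have a2 := h2 m (((le_max_right _ _).trans (le_max_right _ _)).trans hm) hm0 he
  refine ⟨a1, ?_, h_rat n r X m hm0 he⟩
  tfae_have 1 → 2 := alg_eul
  tfae_have 2 → 3 := eul_each
  tfae_have 3 → 6 := h_gm n r X m hm0 he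
  tfae_have 6 → 1 := alg_of_sp (sp_of_u hm0 a1)
  tfae_have 6 → 4 := a2
  tfae_have 4 → 5 := (h_exp n r X m hm0 he).1
  tfae_have 5 → 6 := (h_exp n r X m hm0 he).2
  tfae_finish

end Pool.Agent.Y192.FN
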