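import Pool.Agent.Y192.FN.Ind

/-!
Covers of arbitrary closed subsets of projective space: the special set, which is the Zariski
closure of the union of the images of the nonconstant morphisms from the multiplicative group;
statements of the steps.
-/

set_option autoImplicit false

namespace Pool.Agent.Y192.FN

open MvPolynomial Metric FF Pool.Agent.W603.LV Pool.Agent.W603.PV Pool.Agent.Y192.OG
open Pool.Agent.Y192.KC (Cov ZCov ZRed laur Poly)

/-- `B` is weighted homogeneous of degree `D` -/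
def NWH {n r : ℕ} (X : NDat n r) (m : ℕ) (B : Poly n r) (D : ℕ) : Prop :=
  IsWeightedHomogeneous (Sum.elim (fun _ => 1) fun j => m * X.d j / X.e j) B D

/-- The point `(u, v)` of the variety `X° m`, with coordinates in a field `M`, lies in the special
set: the Zariski closure of the union of the images of the nonconstant morphisms from the
multiplicative group to `X° m`. -/
def InSp {n r : ℕ} (X : NDat n r) (m : ℕ) {M : Type} [Field M] [Algebra ℂ M]
    (u : Fin (n + 1) → M) (v : Fin r → M) : Prop :=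
  ∀ (B : Poly n r) (D : ℕ), NWH X m B D →
    (∀ p s, NGm X m p s → ∀ z : ℂ, z ≠ 0 →
      eval (Sum.elim (fun i => (p i).eval z) (fun j => (s j).eval z)) B = 0) →
    aeval (Sum.elim u v) B = 0

/-- outside of the special set, the degrees of curves are bounded linearly -/
def NSpB {n r : ℕ} (X : NDat n r) (m : ℕ) : Prop :=
  ∃ A : ℕ, ∀ (M : Type) [Field M] [Algebra ℂ M] [IsFF ℂ M] (S : Finset (Place ℂ M))
    (u : Fin (n + 1) → M) (v : Fin r → M), NMap X m S u v →
      pht ℂ u ≤ A * max (canDeg ℂ M + S.card) 0 ∨ InSp X m u v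

/-- maps from the projective line without at most two points -/
def St_nsmallp : Prop :=
  ∀ (n r : ℕ) (X : NDat n r) (m : ℕ), 0 < m → (∀ j, X.e j ∣ m) →
    ∀ (M : Type) [Field M] [Algebra ℂ M] [IsFF ℂ M] (S : Finset (Place ℂ M))
      (u : Fin (n + 1) → M) (v : Fin r → M), canDeg ℂ M < 0 → canDeg ℂ M + S.card ≤ 0 →
      NMap X m S u v → pht ℂ u ≤ 0 ∨ InSp X m u v

/-- the orbits of one-parameter groups -/
def St_nredp : Prop :=
  ∀ (n r : ℕ) (X : ZCov n r), ZRed X → ∃ (g : MvPolynomial (Fin (n + 1)) ℂ) (k : ℕ),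
    g.IsHomogeneous k ∧ g ∉ X.I ∧ ∀ m, 0 < m → (∀ j, X.e j ∣ m) →
      ∀ (a : Fin (n + 1) → ℂ) (b : Fin r → ℂ), Sol (ofZ X) m a b →
        eval (fun i => a i ^ m) g ≠ 0 →
        ∃ p s, NGm (ofZ X) m p s ∧ ∃ z : ℂ, z ≠ 0 ∧ (∀ i, (p i).eval z = a i) ∧
          ∀ j, (s j).eval z = b j

/-- specialization of points with coordinates in function fields -/
def St_nspec : Prop :=
  ∀ (n r : ℕ) (X : NDat n r) (m : ℕ), 0 < m →
    ∀ (M : Type) [Field M] [Algebra ℂ M] [IsFF ℂ M] (u : Fin (n + 1) → M) (v : Fin r → M),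
      Sol X m u v → ∀ (B : Poly n r) (g : MvPolynomial (Fin (n + 1)) ℂ),
        aeval (Sum.elim u v) B ≠ 0 → aeval (fun i => u i ^ m) g ≠ 0 →
        ∃ (a : Fin (n + 1) → ℂ) (b : Fin r → ℂ), Sol X m a b ∧ eval (Sum.elim a b) B ≠ 0 ∧
          eval (fun i => a i ^ m) g ≠ 0

end Pool.Agent.Y192.FN
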