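import Pool.Agent.Y192.FN.Alg
import Pool.Agent.Y192.FN.Sp

/-!
Covers of arbitrary closed subsets of projective space: degree bounds outside of the special set, by
Noetherian induction.
-/

set_option autoImplicit false

namespace Pool.Agent.Y192.FN

open MvPolynomial Metric FF Pool.Agent.W603.LV Pool.Agent.W603.PV Pool.Agent.Y192.OG
open Pool.Agent.Y192.KC (Cov ZCov ZRed laur exists_K redL_of Poly)

/-- substitution of weighted homogeneous polynomials -/
theorem wh_aeval {σ τ : Type} {w : σ → ℕ} {w' : τ → ℕ} (φ : σ → MvPolynomial τ ℂ)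
    (hφ : ∀ i, IsWeightedHomogeneous w' (φ i) (w i)) {B : MvPolynomial σ ℂ} {D : ℕ}
    (hB : IsWeightedHomogeneous w B D) : IsWeightedHomogeneous w' (aeval φ B) D := by
  rw [aeval_def, eval₂_eq]
  refine Submodule.sum_mem (weightedHomogeneousSubmodule ℂ w' D) fun c hc => ?_
  have h1 : ∑ i ∈ c.support, c i • w i = D := by
    have h2 := hB (mem_support_iff.mp hc)
    rwa [Finsupp.weight_apply, Finsupp.sum] at h2
  have h3 : IsWeightedHomogeneous w' (∏ i ∈ c.support, φ i ^ c i) D := by
    rw [← h1]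
    exact IsWeightedHomogeneous.prod _ _ _ fun i _ => (hφ i).pow _
  have h4 := (isWeightedHomogeneous_C (R := ℂ) w' (coeff c B)).mul h3
  rw [zero_add] at h4
  exact h4

section mono

variable {n r : ℕ} {m : ℕ} {M : Type} [Field M] [Algebra ℂ M]

theorem insp_add {X : NDat n r} {g : MvPolynomial (Fin (n + 1)) ℂ}
    {hh : ∀ f ∈ X.J ⊔ Ideal.span {g}, ∀ k, homogeneousComponent k f ∈ X.J ⊔ Ideal.span {g}}
    {u : Fin (n + 1) → M} {v : Fin r → M} (h : InSp (X.add g hh) m u v) : InSp X m u v :=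
  fun B D hB hv => h B D hB fun p s hp => hv p s
    ⟨hp.ne, fun z hz => (hp.sol z hz).of_add, hp.nonconst⟩

theorem ngm_drv {X : NDat (n + 1) r} {i : Fin (n + 2)} (hm : 0 < m)
    {p : Fin (n + 1) → Polynomial ℂ} {s : Fin r → Polynomial ℂ} (hp : NGm (X.drv i) m p s) :
    NGm X m (i.insertNth (α := fun _ => Polynomial ℂ) 0 p) s := by
  refine ⟨fun z hz => ?_, fun z hz => ?_, ?_⟩
  · obtain ⟨k, hk⟩ := hp.ne z hz
    refine ⟨i.succAbove k, ?_⟩
    rwa [Fin.insertNth_apply_succAbove]
  · refine Sol.of_drv (i := i) ?_ ?_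
    · simp only [Fin.insertNth_apply_same, Polynomial.eval_zero]
      exact zero_pow hm.ne'
    · simp only [Fin.insertNth_apply_succAbove]
      exact hp.sol z hz
  · obtain ⟨z, z', hz, hz', k, l, h1⟩ := hp.nonconst
    refine ⟨z, z', hz, hz', i.succAbove k, i.succAbove l, ?_⟩
    rwa [Fin.insertNth_apply_succAbove, Fin.insertNth_apply_succAbove]

theorem ngm_drF {X : NDat n (r + 1)} {j : Fin (r + 1)} (hj : X.F j ∈ X.J)
    {p : Fin (n + 1) → Polynomial ℂ} {s : Fin r → Polynomial ℂ} (hp : NGm (X.drF j) m p s) :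
    NGm X m p (j.insertNth (α := fun _ => Polynomial ℂ) 0 s) := by
  refine ⟨hp.ne, fun z hz => ?_, hp.nonconst⟩
  refine Sol.of_drF hj ?_ ?_
  · simp only [Fin.insertNth_apply_same, Polynomial.eval_zero]
  · simp only [Fin.insertNth_apply_succAbove]
    exact hp.sol z hz

theorem insp_drv {X : NDat (n + 1) r} {i : Fin (n + 2)} (hm : 0 < m) {u : Fin (n + 2) → M}
    {v : Fin r → M} (hu : u i = 0) (h : InSp (X.drv i) m (fun k => u (i.succAbove k)) v) :
    InSp X m u v := by
  intro B D hB hv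
  let φ : Fin (n + 2) ⊕ Fin r → Poly n r := Sum.elim
    (i.insertNth (α := fun _ => Poly n r) 0 fun k => MvPolynomial.X (Sum.inl k))
    fun j => MvPolynomial.X (Sum.inr j)
  have hφ : ∀ c, IsWeightedHomogeneous (Sum.elim (fun _ => 1) fun j => m * (X.drv i).d j /
      (X.drv i).e j) (φ c) (Sum.elim (fun _ => 1) (fun j => m * X.d j / X.e j) c) := by
    rintro (k | j)
    · change IsWeightedHomogeneous _ ((i.insertNth (α := fun _ => Poly n r) 0 fun k =>
        MvPolynomial.X (Sum.inl k)) k) 1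
      refine Fin.succAboveCases i ?_ (fun k => ?_) k
      · rw [Fin.insertNth_apply_same]
        exact isWeightedHomogeneous_zero _ _ _
      · rw [Fin.insertNth_apply_succAbove]
        exact isWeightedHomogeneous_X ℂ _ (Sum.inl k)
    · exact isWeightedHomogeneous_X ℂ _ (Sum.inr j)
  have hval : ∀ {R : Type} [CommRing R] [Algebra ℂ R] (a : Fin (n + 1) → R) (b : Fin r → R),
      aeval (Sum.elim a b) (aeval φ B) = aeval (Sum.elim (i.insertNth (α := fun _ => R) 0 a) b) B := by
    intro R _ _ a b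
    rw [← AlgHom.comp_apply, comp_aeval]
    congr 2
    funext c
    rcases c with k | j
    · change aeval (Sum.elim a b) ((i.insertNth (α := fun _ => Poly n r) 0 fun k =>
        MvPolynomial.X (Sum.inl k)) k) = (i.insertNth (α := fun _ => R) 0 a) k
      refine Fin.succAboveCases i ?_ (fun k => ?_) k
      · rw [Fin.insertNth_apply_same, Fin.insertNth_apply_same, map_zero]
      · rw [Fin.insertNth_apply_succAbove, Fin.insertNth_apply_succAbove, aeval_X, Sum.elim_inl]
    · change aeval (Sum.elim a b) (MvPolynomial.X (Sum.inr j)) = b j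
      rw [aeval_X, Sum.elim_inr]
  have h1 := h (aeval φ B) D (wh_aeval φ hφ hB) fun p s hp z hz => by
    have h2 := hv _ _ (ngm_drv hm hp) z hz
    have h3 := hval (fun k => (p k).eval z) (fun j => (s j).eval z)
    rw [← coe_aeval_eq_eval, RingHom.coe_coe] at h2 ⊢
    rw [h3]
    have h4 : (i.insertNth (α := fun _ => ℂ) 0 fun k => (p k).eval z) =
        fun k => ((i.insertNth (α := fun _ => Polynomial ℂ) 0 p) k).eval z := by
      funext k
      refine Fin.succAboveCases i ?_ (fun k => ?_) k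
      · rw [Fin.insertNth_apply_same, Fin.insertNth_apply_same, Polynomial.eval_zero]
      · rw [Fin.insertNth_apply_succAbove, Fin.insertNth_apply_succAbove]
    rw [h4]
    exact h2
  rw [hval] at h1
  have h5 : (i.insertNth (α := fun _ => M) 0 fun k => u (i.succAbove k)) = u := by
    funext k
    refine Fin.succAboveCases i ?_ (fun k => ?_) k
    · rw [Fin.insertNth_apply_same, hu]
    · rw [Fin.insertNth_apply_succAbove]
  rwa [h5] at h1

theorem insp_drF {X : NDat n (r + 1)} {j : Fin (r + 1)} (hj : X.F j ∈ X.J)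
    {u : Fin (n + 1) → M} {v : Fin (r + 1) → M} (hv0 : v j = 0)
    (h : InSp (X.drF j) m u (fun k => v (j.succAbove k))) : InSp X m u v := by
  intro B D hB hv
  let φ : Fin (n + 1) ⊕ Fin (r + 1) → Poly n r := Sum.elim
    (fun k => MvPolynomial.X (Sum.inl k))
    (j.insertNth (α := fun _ => Poly n r) 0 fun k => MvPolynomial.X (Sum.inr k))
  have hφ : ∀ c, IsWeightedHomogeneous (Sum.elim (fun _ => 1) fun k => m * (X.drF j).d k /
      (X.drF j).e k) (φ c) (Sum.elim (fun _ => 1) (fun k => m * X.d k / X.e k) c) := by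
    rintro (k | k)
    · exact isWeightedHomogeneous_X ℂ _ (Sum.inl k)
    · change IsWeightedHomogeneous _ ((j.insertNth (α := fun _ => Poly n r) 0 fun k =>
        MvPolynomial.X (Sum.inr k)) k) (m * X.d k / X.e k)
      refine Fin.succAboveCases j ?_ (fun k => ?_) k
      · rw [Fin.insertNth_apply_same]
        exact isWeightedHomogeneous_zero _ _ _
      · rw [Fin.insertNth_apply_succAbove]
        exact isWeightedHomogeneous_X ℂ _ (Sum.inr k)
  have hval : ∀ {R : Type} [CommRing R] [Algebra ℂ R] (a : Fin (n + 1) → R) (b : Fin r → R),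
      aeval (Sum.elim a b) (aeval φ B) = aeval (Sum.elim a (j.insertNth (α := fun _ => R) 0 b)) B := by
    intro R _ _ a b
    rw [← AlgHom.comp_apply, comp_aeval]
    congr 2
    funext c
    rcases c with k | k
    · change aeval (Sum.elim a b) (MvPolynomial.X (Sum.inl k)) = a k
      rw [aeval_X, Sum.elim_inl]
    · change aeval (Sum.elim a b) ((j.insertNth (α := fun _ => Poly n r) 0 fun k =>
        MvPolynomial.X (Sum.inr k)) k) = (j.insertNth (α := fun _ => R) 0 b) k
      refine Fin.succAboveCases j ?_ (fun k => ?_) k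
      · rw [Fin.insertNth_apply_same, Fin.insertNth_apply_same, map_zero]
      · rw [Fin.insertNth_apply_succAbove, Fin.insertNth_apply_succAbove, aeval_X, Sum.elim_inr]
  have h1 := h (aeval φ B) D (wh_aeval φ hφ hB) fun p s hp z hz => by
    have h2 := hv _ _ (ngm_drF hj hp) z hz
    have h3 := hval (fun k => (p k).eval z) (fun j => (s j).eval z)
    rw [← coe_aeval_eq_eval, RingHom.coe_coe] at h2 ⊢
    rw [h3]
    have h4 : (j.insertNth (α := fun _ => ℂ) 0 fun k => (s k).eval z) =
        fun k => ((j.insertNth (α := fun _ => Polynomial ℂ) 0 s) k).eval z := by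
      funext k
      refine Fin.succAboveCases j ?_ (fun k => ?_) k
      · rw [Fin.insertNth_apply_same, Fin.insertNth_apply_same, Polynomial.eval_zero]
      · rw [Fin.insertNth_apply_succAbove, Fin.insertNth_apply_succAbove]
    rw [h4]
    exact h2
  rw [hval] at h1
  have h5 : (j.insertNth (α := fun _ => M) 0 fun k => v (j.succAbove k)) = v := by
    funext k
    refine Fin.succAboveCases j ?_ (fun k => ?_) k
    · rw [Fin.insertNth_apply_same, hv0]
    · rw [Fin.insertNth_apply_succAbove]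
  rwa [h5] at h1

end mono

/-- outside of the special set, the degrees of the images in `Z` of the curves in `X° m` are
bounded linearly, with the factor `A` -/
def NSpU {n r : ℕ} (X : NDat n r) (A m : ℕ) : Prop :=
  ∀ (M : Type) [Field M] [Algebra ℂ M] [IsFF ℂ M] (S : Finset (Place ℂ M))
    (u : Fin (n + 1) → M) (v : Fin r → M), NMap X m S u v →
      m * pht ℂ u ≤ A * max (canDeg ℂ M + S.card) 0 ∨ InSp X m u v

/-- degree bounds outside of the special set, with a factor which does not depend on `m` -/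
def QS (n r : ℕ) (X : NDat n r) : Prop :=
  ∃ m0 A : ℕ, ∀ m, m0 ≤ m → 0 < m → (∀ j, X.e j ∣ m) → NSpU X A m

/-- degree bounds outside of the special set, from the steps -/
theorem t_qs (h_prime : FA.St_prime) (h_zred : KC.St_zred) (h_redp : St_nredp)
    (h_spec : St_nspec) (h_adm : St_nadm)
    (h_val : FA.St_fval) (h_num : FA.St_fnum) (h_pht : FA.St_fpht) (h_small : St_nsmallp) :
    ∀ (n r : ℕ) (X : NDat n r), QS n r X := by
  classical
  refine nind QS ?_ ?_ ?_ ?_ ?_
  · intro n r X h
    refine ⟨0, 0, fun m _ hm _ M _ _ _ S u v hM => ?_⟩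
    exfalso
    rcases h with h | h | h
    · have h1 := hM.sol.mem 1 (by rw [h]; exact Submodule.mem_top)
      rw [map_one] at h1
      exact one_ne_zero h1
    · obtain ⟨i, hi⟩ := hM.ne
      have h1 := hM.sol.mem _ (h i)
      rw [aeval_X] at h1
      exact hi (pow_eq_zero_iff hm.ne' |>.mp h1)
    · exact hM.sol.G_ne (hM.sol.mem _ h)
  · intro n r X a b k l ha hb hab ⟨m1, A1, h1⟩ ⟨m2, A2, h2⟩
    refine ⟨max m1 m2, max A1 A2, fun m hm hm0 he M _ _ _ S u v hM => ?_⟩
    have hA1 := h1 m ((le_max_left _ _).trans hm) hm0 he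
    have hA2 := h2 m ((le_max_right _ _).trans hm) hm0 he
    have h3 := hM.sol.mem _ hab
    rw [map_mul, mul_eq_zero] at h3
    have hmax : (0 : ℤ) ≤ max (canDeg ℂ M + S.card) 0 := le_max_right _ _
    rcases h3 with h3 | h3
    · rcases hA1 M S u v ⟨hM.ne, hM.sol.add h3 _, hM.off⟩ with h4 | h4
      · exact Or.inl (h4.trans (mul_le_mul_of_nonneg_right (by exact_mod_cast le_max_left _ _) hmax))
      · exact Or.inr (insp_add h4)
    · rcases hA2 M S u v ⟨hM.ne, hM.sol.add h3 _, hM.off⟩ with h4 | h4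
      · exact Or.inl (h4.trans (mul_le_mul_of_nonneg_right (by exact_mod_cast le_max_right _ _) hmax))
      · exact Or.inr (insp_add h4)
  · intro n r X i hi ⟨m1, A, h1⟩
    refine ⟨m1, A, fun m hm hm0 he M _ _ _ S u v hM => ?_⟩
    have hA := h1 m hm hm0 he
    have hui : u i ^ m = 0 := by
      have := hM.sol.mem _ hi
      rwa [aeval_X] at this
    have hui' : u i = 0 := pow_eq_zero_iff hm0.ne' |>.mp hui
    have hpo : ∀ P : Place ℂ M, pord P (fun k => u (i.succAbove k)) = pord P u := fun P =>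
      (pord_drop hui' hM.ne P).2
    obtain ⟨k0, hk0⟩ := hM.ne
    have hne' : ∃ k, u (i.succAbove k) ≠ 0 := by
      obtain ⟨l, rfl⟩ := Fin.exists_succAbove_eq (x := k0) (y := i) (fun h => hk0 (by rw [h, hui']))
      exact ⟨l, hk0⟩
    have h2 := hA M S (fun k => u (i.succAbove k)) v ⟨hne', hM.sol.drv hui, fun P hP => by
      change P.ord (aeval (fun k => u (i.succAbove k) ^ m) (sub0 i X.G)) = _
      rw [aeval_sub0 (u := fun k => u k ^ m) hui, hpo P]
      exact hM.off P hP⟩
    have h3 : pht ℂ (fun k => u (i.succAbove k)) = pht ℂ u := by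
      unfold pht
      rw [finsum_congr hpo]
    rw [h3] at h2
    exact h2.imp_right (insp_drv hm0 hui')
  · intro n r X j hj ⟨m1, A, h1⟩
    refine ⟨m1, A, fun m hm hm0 he M _ _ _ S u v hM => ?_⟩
    have hA := h1 m hm hm0 (fun k => he _)
    have hv0 : v j = 0 := by
      have h2 := hM.sol.eqn j
      rw [hM.sol.mem _ hj] at h2
      exact pow_eq_zero_iff (X.he j).ne' |>.mp h2
    exact (hA M S u _ ⟨hM.ne, hM.sol.drF, hM.off⟩).imp_right (insp_drF hj hv0)
  · intro n r X ih
    by_cases hR : ZRed X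
    · obtain ⟨g, k, hg, hgI, hgo⟩ := h_redp n r X hR
      obtain ⟨m1, A, h1⟩ := ih g k hg hgI
      refine ⟨m1, A, fun m hm hm0 he M _ _ _ S u v hM => ?_⟩
      have hA := h1 m hm hm0 he
      by_cases hexc : aeval (fun i => u i ^ m) g = 0
      · exact (hA M S u v ⟨hM.ne, hM.sol.add hexc _, hM.off⟩).imp_right insp_add
      · right
        intro B D hB hv
        by_contra hne
        obtain ⟨a, b, h2, h3, h4⟩ := h_spec n r (ofZ X) m hm0 M u v hM.sol B g hne hexc
        obtain ⟨p, s, hps, z, hz, h5, h6⟩ := hgo m hm0 he a b h2 h4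
        apply h3
        have h7 := hv p s hps z hz
        have h8 : (fun i => (p i).eval z) = a := funext h5
        have h9 : (fun j => (s j).eval z) = b := funext h6
        rwa [h8, h9] at h7
    obtain ⟨K, i1, i2, x, hx, hgen⟩ := exists_K X
    have hRL : ¬ Pool.Agent.Y192.KC.RedL x X.FL X.eL := fun h => hR (h_zred n r X K x hx h)
    have hFne : ∀ j, ep x (X.FL j) ≠ 0 := by
      intro j
      refine Fin.cases ?_ (fun j => ?_) j
      · intro h
        exact X.hGI ((hx X.G X.q X.hG).mp h)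
      · intro h
        exact X.hFI j ((hx (X.F j) (X.d j) (X.hF j)).mp h)
    obtain ⟨Γ, A, D, S, a, m0, G, C, hs, hG, hk, hj, hC, hcurves⟩ :=
      h_prime n (r + 1) K x X.FL X.eL hFne
    have htop : Γ = ⊤ := by
      by_contra hne
      exact hRL (redL_of hs hG hk hj hne)
    obtain ⟨g, k, hg, hgI, hgval⟩ := h_val n r X K x hx G hG
    -- the exceptional hypersurface
    have hprodh : (∏ i : Fin (n + 1), (MvPolynomial.X i : MvPolynomial (Fin (n + 1)) ℂ)).IsHomogeneous
        (∑ _i : Fin (n + 1), 1) := IsHomogeneous.prod _ _ _ fun i _ => isHomogeneous_X _ _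
    have hprodI : (∏ i : Fin (n + 1), (MvPolynomial.X i : MvPolynomial (Fin (n + 1)) ℂ)) ∉ X.I := by
      intro h
      obtain ⟨i, _, hi⟩ := (Ideal.IsPrime.prod_mem_iff (hp := X.prime)).mp h
      exact X.hX i hi
    have hgI' : g * ∏ i : Fin (n + 1), (MvPolynomial.X i : MvPolynomial (Fin (n + 1)) ℂ) ∉ X.I := by
      intro h
      rcases X.prime.mem_or_mem h with h | h
      · exact hgI h
      · exact hprodI h
    obtain ⟨m1, A1, h1⟩ := ih _ _ (hg.mul hprodh) hgI'
    set CC : ℝ := ∑ i : Fin n, C (Pi.single i 1) with hCC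
    have hCC0 : 0 ≤ CC := Finset.sum_nonneg fun i _ => hC _
    have hCi : ∀ i : Fin n, C (Pi.single i 1) ≤ CC := fun i =>
      Finset.single_le_sum (f := fun i : Fin n => C (Pi.single i 1)) (fun i _ => hC _)
        (Finset.mem_univ i)
    refine ⟨max (max m0 m1) ⌈4 * CC⌉₊, max A1 ⌈18 * (n : ℝ) * CC⌉₊,
      fun m hm hm0 he M _ _ _ T u v hM => ?_⟩
    have hmC : 4 * CC ≤ (m : ℝ) :=
      (Nat.le_ceil _).trans (by exact_mod_cast (le_max_right _ _).trans hm)
    have hmm0 : m0 ≤ m := ((le_max_left _ _).trans (le_max_left _ _)).trans hm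
    have hmm1 : m1 ≤ m := ((le_max_right _ _).trans (le_max_left _ _)).trans hm
    have hee : ∀ j, X.eL j ≠ 0 → X.eL j ∣ m := by
      intro j
      refine Fin.cases ?_ (fun j => ?_) j
      · intro h
        exact absurd rfl h
      · intro _
        exact he j
    have hA1 := h1 m hmm1 hm0 he
    have hmax : (0 : ℤ) ≤ max (canDeg ℂ M + T.card) 0 := le_max_right _ _
    by_cases hexc : aeval (fun i => u i ^ m)
        (g * ∏ i : Fin (n + 1), (MvPolynomial.X i : MvPolynomial (Fin (n + 1)) ℂ)) = 0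
    · rcases hA1 M T u v ⟨hM.ne, hM.sol.add hexc _, hM.off⟩ with h4 | h4
      · exact Or.inl (h4.trans (mul_le_mul_of_nonneg_right (by exact_mod_cast le_max_left _ _) hmax))
      · exact Or.inr (insp_add h4)
    rw [map_mul, map_prod, mul_eq_zero, not_or, Finset.prod_eq_zero_iff] at hexc
    push Not at hexc
    obtain ⟨h2, h3⟩ := hexc
    have hu : ∀ i, u i ≠ 0 := by
      intro i h4
      refine h3 i (Finset.mem_univ i) ?_
      rw [aeval_X, h4, zero_pow hm0.ne']
    by_cases hsm : canDeg ℂ M < 0 ∧ canDeg ℂ M + T.card ≤ 0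
    · rcases h_small n r (ofZ X) m hm0 he M T u v hsm.1 hsm.2 hM with h4 | h4
      · exact Or.inl ((mul_nonpos_of_nonneg_of_nonpos (Int.natCast_nonneg _) h4).trans
          (mul_nonneg (Int.natCast_nonneg _) hmax))
      · exact Or.inr h4
    -- the main case
    left
    let y : Fin n → Mˣ := fun i => Units.mk0 ((u i.succ / u 0) ^ m)
      (pow_ne_zero _ (div_ne_zero (hu _) (hu 0)))
    have hy : ∀ i, (y i : M) = (u i.succ / u 0) ^ m := fun i => rfl
    have hnum := h_num n CC m hCC0 hmC hm0 M y T (fun i z _ => by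
      rw [hy, z.ord_pow]
      exact dvd_mul_right _ _) (fun E hE B hB hTB i => by
        let c : FA.Curve n := ⟨M, y, E, hE, B, hB⟩
        obtain ⟨ha, hv⟩ := h_adm n r X m hm0 he K x hx c T u v hu hM hy (fun z hz => hTB hz)
        have hev : c.ev G ≠ 0 := by
          intro h
          have h4 := (FA.ev_eq_zero c G).mp h
          refine hgval M y (fun i => u i ^ m) (fun i => pow_ne_zero _ (hu i)) (fun i => ?_) h2 h4
          rw [hy, div_pow]
        have h5 := hcurves m hmm0 hee c ha hv hev (Pi.single i 1)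
          (by rw [htop]; exact Submodule.mem_top)
        have hbB : 0 ≤ c.bB := Finset.sum_nonneg fun z _ =>
          add_nonneg zero_le_one (le_max_right _ _)
        exact h5.trans (mul_le_mul_of_nonneg_right (hCi i) hbB))
    have hpht := h_pht n m hm0 M u hu
    have hR1 : ((m : ℤ) * pht ℂ u : ℝ) ≤ n * (2 * CC * max (2 * canDeg ℂ M + 3 * (T.card : ℝ)) 0) := by
      have h6 : ((m * pht ℂ u : ℤ) : ℝ) ≤
          ((∑ i : Fin n, ∑ᶠ z : Place ℂ M, |z.ord ((u i.succ / u 0) ^ m)| : ℤ) : ℝ) := by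
        exact_mod_cast hpht
      have h7 : ((∑ i : Fin n, ∑ᶠ z : Place ℂ M, |z.ord ((u i.succ / u 0) ^ m)| : ℤ) : ℝ) ≤
          ∑ _i : Fin n, (2 * CC * max (2 * canDeg ℂ M + 3 * (T.card : ℝ)) 0) := by
        rw [Int.cast_sum]
        exact Finset.sum_le_sum fun i _ => hnum i
      rw [Finset.sum_const, Finset.card_univ, Fintype.card_fin, nsmul_eq_mul] at h7
      push_cast at h6 ⊢
      push_cast at h7
      exact h6.trans h7
    have hR2 : max (2 * (canDeg ℂ M : ℝ) + 3 * (T.card : ℝ)) 0 ≤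
        9 * ((max (canDeg ℂ M + T.card) 0 : ℤ) : ℝ) := by
      have h8 : max (2 * canDeg ℂ M + 3 * (T.card : ℤ)) 0 ≤ 9 * max (canDeg ℂ M + T.card) 0 := by
        by_cases hc : canDeg ℂ M < 0
        · have h9 := FA.canDeg_of_neg hc
          have h10 : 0 < canDeg ℂ M + T.card := by
            by_contra hcon
            exact hsm ⟨hc, not_lt.mp hcon⟩
          omega
        · omega
      exact_mod_cast h8
    have hfin : m * pht ℂ u ≤ (⌈18 * (n : ℝ) * CC⌉₊ : ℤ) * max (canDeg ℂ M + T.card) 0 := by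
      have h12 : (0 : ℝ) ≤ ((max (canDeg ℂ M + T.card) 0 : ℤ) : ℝ) := by
        exact_mod_cast le_max_right _ _
      have h13 : (18 * (n : ℝ) * CC) * ((max (canDeg ℂ M + T.card) 0 : ℤ) : ℝ) ≤
          (⌈18 * (n : ℝ) * CC⌉₊ : ℝ) * ((max (canDeg ℂ M + T.card) 0 : ℤ) : ℝ) :=
        mul_le_mul_of_nonneg_right (Nat.le_ceil _) h12
      have h15 : (0 : ℝ) ≤ n := Nat.cast_nonneg _
      have h16 : (n : ℝ) * (2 * CC * max (2 * canDeg ℂ M + 3 * (T.card : ℝ)) 0) ≤
          (18 * (n : ℝ) * CC) * ((max (canDeg ℂ M + T.card) 0 : ℤ) : ℝ) := by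
        have h17 := mul_le_mul_of_nonneg_left hR2 (mul_nonneg (mul_nonneg h15 zero_le_two) hCC0)
        linarith
      have h18 : ((m : ℤ) * pht ℂ u : ℝ) ≤
          (⌈18 * (n : ℝ) * CC⌉₊ : ℝ) * ((max (canDeg ℂ M + T.card) 0 : ℤ) : ℝ) :=
        (hR1.trans h16).trans h13
      exact_mod_cast h18
    exact hfin.trans (mul_le_mul_of_nonneg_right (by exact_mod_cast le_max_right _ _) hmax)

theorem sp_of_u {n r : ℕ} {X : NDat n r} {A m : ℕ} (hm : 0 < m) (h : NSpU X A m) : NSpB X m := by
  refine ⟨A, fun M _ _ _ S u v hM => (h M S u v hM).imp_left fun h1 => ?_⟩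
  have h2 : (0 : ℤ) ≤ A * max (canDeg ℂ M + S.card) 0 :=
    mul_nonneg (Int.natCast_nonneg _) (le_max_right _ _)
  by_contra hcon
  push Not at hcon
  have h3 : pht ℂ u ≤ m * pht ℂ u := by
    have h4 : (1 : ℤ) ≤ m := by exact_mod_cast hm
    nlinarith
  omega

/-- if there are no multiplicative groups, the special set is empty -/
theorem alg_of_sp {n r : ℕ} {X : NDat n r} {m : ℕ} (h : NSpB X m) (hN : NNoGm X m) :
    NAlg X m := by
  obtain ⟨A, hA⟩ := h
  refine ⟨A, fun M _ _ _ S u v hM => ?_⟩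
  rcases hA M S u v hM with h1 | h1
  · exact h1
  · exfalso
    obtain ⟨i, hi⟩ := hM.ne
    have h2 := h1 (MvPolynomial.X (Sum.inl i)) 1 (isWeightedHomogeneous_X ℂ _ (Sum.inl i))
      (fun p s hp => absurd hp (hN p s))
    rw [aeval_X, Sum.elim_inl] at h2
    exact hi h2

end Pool.Agent.Y192.FN
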