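import Pool.Agent.Y192.FN.Rat

/-!
Covers of arbitrary closed subsets of projective space, the projective case: maps from
one-dimensional complex tori.
-/

set_option autoImplicit false

namespace Pool.Agent.Y192.FN

open MvPolynomial Metric FF Topology Filter

variable {n r : ℕ}

/-- the same point of the weighted projective space -/
def NSame (X : NDat n r) (m : ℕ) (a b : (Fin (n + 1) → ℂ) × (Fin r → ℂ)) : Prop :=
  ∃ s : ℂ, s ≠ 0 ∧ (∀ i, b.1 i = s * a.1 i) ∧ ∀ j, b.2 j = s ^ (m * X.d j / X.e j) * a.2 j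

/-- A holomorphic map from the complex torus `ℂ / (ℤ w1 + ℤ w2)` to `X m`: the point `f z` of `X m`
is given near any `z0` by weighted homogeneous coordinates which are holomorphic at `z0`, and it is
invariant under the translations by `w1` and `w2`. -/
structure TMap (X : NDat n r) (m : ℕ) (w1 w2 : ℂ)
    (f : ℂ → (Fin (n + 1) → ℂ) × (Fin r → ℂ)) : Prop where
  ne : ∀ z, (f z).1 ≠ 0
  sol : ∀ z, Sol X m (f z).1 (f z).2
  holo : ∀ z, ∃ g : ℂ → (Fin (n + 1) → ℂ) × (Fin r → ℂ), AnalyticAt ℂ g z ∧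
    ∀ᶠ w in 𝓝 z, NSame X m (g w) (f w)
  per1 : ∀ z, NSame X m (f z) (f (z + w1))
  per2 : ∀ z, NSame X m (f z) (f (z + w2))

/-- Every holomorphic map from a one-dimensional complex torus to `X m` is constant. -/
def NEll (X : NDat n r) (m : ℕ) : Prop :=
  ∀ w1 w2 : ℂ, LinearIndependent ℝ ![w1, w2] → ∀ f, TMap X m w1 w2 f →
    ∀ z w, NSame X m (f z) (f w)

/-- rational curves and maps from tori -/
def St_nell : Prop :=
  ∀ (n r : ℕ) (X : NDat n r) (m : ℕ), 0 < m → (∀ j, X.e j ∣ m) → NEll X m → NNoRat X m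

end Pool.Agent.Y192.FN
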