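import Pool.Agent.Y192.FN.TorMain
import Pool.Agent.Y815.FN.Nline
import Pool.Agent.Y210.FN.Ntor

/-!
Covers of arbitrary closed subsets of projective space, the projective case: maps from
one-dimensional complex tori through the points of entire curves.
-/

set_option autoImplicit false

namespace Pool.Agent.Y192.FN

open Metric

theorem mainT_all {n r : ℕ} (X : NDat n r) (hG : X.G = 1) :
    ∃ m0 : ℕ, ∀ m, m0 ≤ m → (∀ j, X.e j ∣ m) →
      (∀ u v, NEnt X m u v → {z | ¬ OnTorus X m (u z) (v z)}.Countable) ∧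
      (∀ u v, NDisc X m u v → NExt X m u v ∨
        {z | z ∈ ball (0 : ℂ) 1 \ {0} ∧ ¬ OnTorus X m (u z) (v z)}.Countable) ∧
      (NEll X m → NBro X m ∧ NPic X m ∧ NAlg X m) :=
  mainT Pool.Agent.Y815.FN.t_nline Pool.Agent.Y210.FN.t_ntor X hG

end Pool.Agent.Y192.FN
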