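import Pool.Agent.Y192.FN.TorP
import Pool.Agent.Y192.FN.All
import Pool.Agent.Y192.KC.All4

/-!
Covers of arbitrary closed subsets of projective space, the projective case: maps from
one-dimensional complex tori through the points of entire curves, from the steps.
-/

set_option autoImplicit false

namespace Pool.Agent.Y192.FN

open MvPolynomial Metric

variable {n r : ℕ}

theorem pt_iff {X : NDat n r} {m : ℕ} {u : Fin (n + 1) → ℂ} {v : Fin r → ℂ} :
    (toL X).Pt m u v ↔ u ≠ 0 ∧ Sol X m u v := by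
  constructor
  · rintro ⟨⟨h1, h2, h3⟩, h4⟩
    refine ⟨h1, ⟨fun f hf => ?_, fun j => h3 j, h4⟩⟩
    change eval (fun i => u i ^ m) f = 0
    rw [← sum_homogeneousComponent f, map_sum]
    exact Finset.sum_eq_zero fun k _ =>
      h2 _ ⟨X.hJ f hf k, k, homogeneousComponent_isHomogeneous k f⟩
  · rintro ⟨h1, h2⟩
    exact ⟨⟨h1, fun f hf => h2.mem f hf.1, fun j => h2.eqn j⟩, h2.G_ne⟩

theorem nsame_symm {X : NDat n r} {m : ℕ} {a b : (Fin (n + 1) → ℂ) × (Fin r → ℂ)}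
    (h : NSame X m a b) : NSame X m b a := by
  obtain ⟨s, hs, h1, h2⟩ := h
  refine ⟨s⁻¹, inv_ne_zero hs, fun i => ?_, fun j => ?_⟩
  · rw [h1, inv_mul_cancel_left₀ hs]
  · rw [h2, inv_pow, inv_mul_cancel_left₀ (pow_ne_zero _ hs)]

theorem nsame_trans {X : NDat n r} {m : ℕ} {a b c : (Fin (n + 1) → ℂ) × (Fin r → ℂ)}
    (h : NSame X m a b) (h' : NSame X m b c) : NSame X m a c := by
  obtain ⟨s, hs, h1, h2⟩ := h
  obtain ⟨s', hs', h1', h2'⟩ := h'
  refine ⟨s' * s, mul_ne_zero hs' hs, fun i => ?_, fun j => ?_⟩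
  · rw [h1', h1, mul_assoc]
  · rw [h2', h2, mul_pow, mul_assoc]

theorem ont_of_gm (h_nline : St_nline) (h_ntor : St_ntor) {X : NDat n r} {m : ℕ} (hm : 0 < m)
    (he : ∀ j, X.e j ∣ m) (hG : X.G = 1) {u : Fin (n + 1) → ℂ} {v : Fin r → ℂ}
    (h : (toL X).OnGm m u v) : OnTorus X m u v := by
  obtain ⟨p, s, hps, y, hy, hs⟩ := h
  obtain ⟨p', s', hl, h1⟩ := h_nline n r X m hm he hG p s hps y hy
  obtain ⟨w1, w2, f, hw, hf, hne, z, hz⟩ := h_ntor n r X m hm he hG p' s' hl y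
  have hs' : NSame X m (fun i => (p i).eval y, fun j => (s j).eval y) (u, v) := hs
  exact ⟨w1, w2, f, hw, hf, hne, z, nsame_trans hz (nsame_trans h1 hs')⟩

theorem not_ont {X : NDat n r} {m : ℕ} (h : NEll X m) (u : Fin (n + 1) → ℂ) (v : Fin r → ℂ) :
    ¬ OnTorus X m u v := by
  rintro ⟨w1, w2, f, hw, hf, ⟨z, z', hz⟩, -⟩
  exact hz (h w1 w2 hw f hf z z')

theorem mainT (h_nline : St_nline) (h_ntor : St_ntor) (X : NDat n r) (hG : X.G = 1) :
    ∃ m0 : ℕ, ∀ m, m0 ≤ m → (∀ j, X.e j ∣ m) →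
      (∀ u v, NEnt X m u v → {z | ¬ OnTorus X m (u z) (v z)}.Countable) ∧
      (∀ u v, NDisc X m u v → NExt X m u v ∨
        {z | z ∈ ball (0 : ℂ) 1 \ {0} ∧ ¬ OnTorus X m (u z) (v z)}.Countable) ∧
      (NEll X m → NBro X m ∧ NPic X m ∧ NAlg X m) := by
  obtain ⟨m1, h1⟩ := KC.gmE_all n r (toL X)
  obtain ⟨m2, h2⟩ := KC.gmD_all n r (toL X)
  obtain ⟨m3, A, h3⟩ := mainN_all X
  refine ⟨max (max m1 m2) (max m3 1), fun m hm he => ?_⟩
  have hm1 : m1 ≤ m := (le_max_left _ _).trans ((le_max_left _ _).trans hm)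
  have hm2 : m2 ≤ m := (le_max_right _ _).trans ((le_max_left _ _).trans hm)
  have hm3 : m3 ≤ m := (le_max_left _ _).trans ((le_max_right _ _).trans hm)
  have hm0 : 0 < m := lt_of_lt_of_le one_pos ((le_max_right _ _).trans ((le_max_right _ _).trans hm))
  have hE : ∀ u v, NEnt X m u v → {z | ¬ OnTorus X m (u z) (v z)}.Countable := by
    intro u v huv
    refine (h1 m hm1 he u v ⟨huv.diffu, huv.diffv, fun z => pt_iff.mpr ⟨huv.ne z, huv.sol z⟩,
      ?_⟩).mono fun z hz hgm => hz (ont_of_gm h_nline h_ntor hm0 he hG hgm)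
    obtain ⟨z, z', i, j, hz⟩ := huv.nonconst
    refine ⟨z, z', fun hs => hz ?_⟩
    obtain ⟨s, -, hs1, -⟩ := hs
    rw [hs1, hs1]
    ring
  have hD : ∀ u v, NDisc X m u v → NExt X m u v ∨
      {z | z ∈ ball (0 : ℂ) 1 \ {0} ∧ ¬ OnTorus X m (u z) (v z)}.Countable := by
    intro u v huv
    have hmem : ∀ z ∈ ball (0 : ℂ) 1 \ {0}, (toL X).Pt m (u z) (v z) := by
      intro z hz
      rw [pt_iff]
      exact ⟨huv.ne z hz, huv.sol z hz⟩
    rcases h2 m hm2 he u v ⟨huv.diffu, huv.diffv, hmem⟩ with h | h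
    · left
      exact h
    · right
      refine h.mono ?_
      rintro z ⟨hz1, hz2⟩
      exact ⟨hz1, fun hgm => hz2 (ont_of_gm h_nline h_ntor hm0 he hG hgm)⟩
  refine ⟨hE, hD, fun hell => ?_⟩
  have hB : NBro X m := by
    intro u v hu hv hne hsol z z' i j
    by_contra hcon
    have h4 := hE u v ⟨hu, hv, hne, hsol, z, z', i, j, hcon⟩
    have h5 : {z | ¬ OnTorus X m (u z) (v z)} = Set.univ :=
      Set.eq_univ_of_forall fun z => not_ont hell _ _
    rw [h5] at h4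
    exact not_countable_complex h4
  have htf := (h3 m hm3 he).2.1
  exact ⟨hB, (htf.out 4 3).mp hB, (htf.out 4 0).mp hB⟩

end Pool.Agent.Y192.FN
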