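import Pool.Agent.Y192.FN.Tor
import Pool.Agent.Y192.KC.PStm

/-!
Covers of arbitrary closed subsets of projective space, the projective case: points on the images of
maps from one-dimensional complex tori.
-/

set_option autoImplicit false

namespace Pool.Agent.Y192.FN

open MvPolynomial Metric

variable {n r : ℕ}

/-- The point `(u, v)` of `X m` lies on the image of a nonconstant holomorphic map from a
one-dimensional complex torus to `X m`. -/
def OnTorus (X : NDat n r) (m : ℕ) (u : Fin (n + 1) → ℂ) (v : Fin r → ℂ) : Prop :=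
  ∃ (w1 w2 : ℂ) (f : ℂ → (Fin (n + 1) → ℂ) × (Fin r → ℂ)), LinearIndependent ℝ ![w1, w2] ∧
    TMap X m w1 w2 f ∧ (∃ z z', ¬ NSame X m (f z) (f z')) ∧ ∃ z, NSame X m (f z) (u, v)

/-- nonconstant entire curves in `X m`, in homogeneous coordinates -/
structure NEnt (X : NDat n r) (m : ℕ) (u : ℂ → Fin (n + 1) → ℂ) (v : ℂ → Fin r → ℂ) : Prop where
  diffu : Differentiable ℂ u
  diffv : Differentiable ℂ v
  ne : ∀ z, u z ≠ 0
  sol : ∀ z, Sol X m (u z) (v z)
  nonconst : ∃ z z' i j, u z i * u z' j ≠ u z j * u z' i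

/-- the same data, with the forms of the ideal as equations -/
noncomputable def toL (X : NDat n r) : KC.LProj n r where
  E := {f | f ∈ X.J ∧ ∃ k, f.IsHomogeneous k}
  F := X.F
  d := X.d
  e := X.e
  hE := fun _ hf => hf.2
  hF := X.hF
  he := X.he
  G := X.G
  q := X.q
  hG := X.hG

/-- from the multiplicative group to rational curves -/
def St_nline : Prop :=
  ∀ (n r : ℕ) (X : NDat n r) (m : ℕ), 0 < m → (∀ j, X.e j ∣ m) → X.G = 1 →
    ∀ p s, (toL X).Gm m p s → ∀ y : ℂ, y ≠ 0 → ∃ p' s', NLine X m p' s' ∧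
      NSame X m (fun i => (p' i).eval y, fun j => (s' j).eval y)
        (fun i => (p i).eval y, fun j => (s j).eval y)

/-- the points of rational curves lie on images of tori -/
def St_ntor : Prop :=
  ∀ (n r : ℕ) (X : NDat n r) (m : ℕ), 0 < m → (∀ j, X.e j ∣ m) → X.G = 1 →
    ∀ p s, NLine X m p s → ∀ y : ℂ, OnTorus X m (fun i => (p i).eval y) (fun j => (s j).eval y)

end Pool.Agent.Y192.FN
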